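import Pool.Agent.N155.Defs

/-!
Projective manifolds, positivity of their 2-forms, symmetric differentials, and entire curves whose
derivative is bounded above and below.
-/

set_option autoImplicit false

open Filter Topology LinearAlgebra.Projectivization Pool.Agent.W602.GT

namespace Pool.Agent.N155.BB

variable {n : ℕ} {ι : Type}

/-- Near the point `x`, the cone `X` in `ℂⁿ⁺¹` is the cone over the graph of a holomorphic map `Ψ`
in `d` of the affine coordinates `u j / u i` (with `x i ≠ 0`): the projective set given by `X` is,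
near the point `x`, a closed complex submanifold of dimension `d` of projective space. -/
def GraphAt (X : Set (Fin (n + 1) → ℂ)) (d : ℕ) (x : Fin (n + 1) → ℂ) : Prop :=
  ∃ (i : Fin (n + 1)) (J : Fin d → Fin (n + 1)) (U : Set (Fin d → ℂ))
    (Ψ : (Fin d → ℂ) → Fin (n + 1) → ℂ), x i ≠ 0 ∧ IsOpen U ∧ (fun k => x (J k) / x i) ∈ U ∧
    AnalyticOnNhd ℂ Ψ U ∧ (∀ z ∈ U, Ψ z ∈ X ∧ Ψ z i = 1 ∧ ∀ k, Ψ z (J k) = z k) ∧
    ∀ᶠ u in 𝓝 x, u ∈ X → u = u i • Ψ (fun k => u (J k) / u i)

/-- The set `X = {F = 0}` in `ℙⁿ(ℂ)`, given by forms, is a complex submanifold of dimension `d` of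
projective space. -/
structure ProjManifold (F : ι → MvPolynomial (Fin (n + 1)) ℂ) (d : ℕ) : Prop where
  form : ∀ i, IsForm (F i)
  smooth : ∀ x ∈ Cone F, GraphAt (Cone F) d x

/-- Positivity, outside the set with the cone `Z`, of the 2-forms on the projective manifold of
dimension `d` with the cone `X`: the `η q x v w`, for `x` in `X` and for tangent vectors `v`, `w` of
`X` at `x`, are holomorphic and satisfy
`η (c x) (c (v + a x)) (c (w + b x + e v)) = c⁻¹ η x v w` (`c`, `a`, `b`, `e` numbers, `c ≠ 0`); thus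
they are twisted by `O (-1)` and depend only on the point of projective space and on the two tangent
vectors there which are given by `v`, `w`, and do not change when a multiple of `v` is added to `w`.
Whenever `x` is not in `Z` and `v` and `w` give linearly independent tangent vectors of the
manifold, some `η q x v w` is not zero.

For example, `η q x v w` may be the value at `(v ∧ w) ^ ν` of a holomorphic section of
`Sym ^ ν (Λ² Ω) ⊗ O (-1)`, for any `ν = ν (q)`; the condition holds for suitable `ν`, `η` with `Z`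
empty if the vector bundle `Λ² Ω` is ample. If `d = 2`, then `Λ² Ω` is the canonical bundle; if it is
big, the condition holds for suitable `ν`, `η` with some proper algebraic subset `Z`. -/
structure PositiveTwoForms (X Z : Set (Fin (n + 1) → ℂ)) (d : ℕ) {κ : Type}
    (η : κ → (Fin (n + 1) → ℂ) → (Fin (n + 1) → ℂ) → (Fin (n + 1) → ℂ) → ℂ) : Prop where
  twist : ∀ (q : κ), ∀ x ∈ X, ∀ (v w : Fin (n + 1) → ℂ) (c a b e : ℂ), c ≠ 0 →
    η q (c • x) (c • (v + a • x)) (c • (w + b • x + e • v)) = c⁻¹ * η q x v w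
  hol : ∀ (q : κ) (U : Set (Fin d → ℂ)) (Ψ : (Fin d → ℂ) → Fin (n + 1) → ℂ), IsOpen U →
    AnalyticOnNhd ℂ Ψ U → (∀ z ∈ U, Ψ z ∈ X) →
    AnalyticOnNhd ℂ (fun p : (Fin d → ℂ) × (Fin d → ℂ) × (Fin d → ℂ) =>
      η q (Ψ p.1) (fderiv ℂ Ψ p.1 p.2.1) (fderiv ℂ Ψ p.1 p.2.2)) (U ×ˢ Set.univ)
  pos : ∀ (U : Set (Fin d → ℂ)) (Ψ : (Fin d → ℂ) → Fin (n + 1) → ℂ), IsOpen U →
    AnalyticOnNhd ℂ Ψ U → (∀ z ∈ U, Ψ z ∈ X) → ∀ z ∈ U, Ψ z ∉ Z → ∀ a b : Fin d → ℂ,
    LinearIndependent ℂ ![Ψ z, fderiv ℂ Ψ z a, fderiv ℂ Ψ z b] →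
    ∃ q, η q (Ψ z) (fderiv ℂ Ψ z a) (fderiv ℂ Ψ z b) ≠ 0

/-- `σ` is a symmetric differential of degree `k` on the projective manifold of dimension `d` with
the cone `X`, a holomorphic section of `Sym ^ k Ω`: the `σ x v`, for `x` in `X` and for tangent
vectors `v` of `X` at `x`, are holomorphic and satisfy `σ (c x) (c (v + a x)) = σ x v` and
`σ x (c v) = c ^ k σ x v` (`c`, `a` numbers, `c ≠ 0`). -/
structure SymDiff (X : Set (Fin (n + 1) → ℂ)) (d k : ℕ)
    (σ : (Fin (n + 1) → ℂ) → (Fin (n + 1) → ℂ) → ℂ) : Prop where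
  twist : ∀ x ∈ X, ∀ (v : Fin (n + 1) → ℂ) (c a : ℂ), c ≠ 0 → σ (c • x) (c • (v + a • x)) = σ x v
  deg : ∀ x ∈ X, ∀ (v : Fin (n + 1) → ℂ) (c : ℂ), σ x (c • v) = c ^ k * σ x v
  hol : ∀ (U : Set (Fin d → ℂ)) (Ψ : (Fin d → ℂ) → Fin (n + 1) → ℂ), IsOpen U →
    AnalyticOnNhd ℂ Ψ U → (∀ z ∈ U, Ψ z ∈ X) →
    AnalyticOnNhd ℂ (fun p : (Fin d → ℂ) × (Fin d → ℂ) => σ (Ψ p.1) (fderiv ℂ Ψ p.1 p.2))
      (U ×ˢ Set.univ)

/-- The curve `f` is tangent to the symmetric differential `σ`: `σ(f') = 0`, in local homogeneous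
coordinates `g` of `f`. -/
def TangentTo (σ : (Fin (n + 1) → ℂ) → (Fin (n + 1) → ℂ) → ℂ)
    (f : ℂ → ℙ ℂ (Fin (n + 1) → ℂ)) : Prop :=
  ∀ (V : Set ℂ) (g : ℂ → Fin (n + 1) → ℂ), IsOpen V → DifferentiableOn ℂ g V →
    (∀ w ∈ V, ∃ h : g w ≠ 0, f w = Projectivization.mk ℂ (g w) h) → ∀ z ∈ V, σ (g z) (deriv g z) = 0

/-- `f` is a holomorphic map from the complex plane to the projective set `X = {F = 0}`. -/
def HolIn (F : ι → MvPolynomial (Fin (n + 1)) ℂ) (f : ℂ → ℙ ℂ (Fin (n + 1) → ℂ)) : Prop :=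
  HolMap f ∧ ∀ z, (f z).rep ∈ Cone F

/-- The curve `f` factors through a holomorphic map from the projective line to projective space:
`f = (p 0 (u, v) : ⋯ : p n (u, v))` with entire functions `u`, `v` without common zeros and forms
`p j` of the same degree in two variables without nontrivial common zeros. (Constant maps do, with
forms of degree zero.) -/
def ThroughLine (f : ℂ → ℙ ℂ (Fin (n + 1) → ℂ)) : Prop :=
  ∃ (u v : ℂ → ℂ) (m : ℕ) (p : Fin (n + 1) → MvPolynomial (Fin 2) ℂ), Differentiable ℂ u ∧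
    Differentiable ℂ v ∧ (∀ j, (p j).IsHomogeneous m) ∧
    (∀ a : Fin 2 → ℂ, a ≠ 0 → ∃ j, MvPolynomial.eval a (p j) ≠ 0) ∧ (∀ z, u z ≠ 0 ∨ v z ≠ 0) ∧
    ∀ z, ∃ h : (fun j => MvPolynomial.eval ![u z, v z] (p j)) ≠ 0,
      f z = Projectivization.mk ℂ (fun j => MvPolynomial.eval ![u z, v z] (p j)) h

/-- The holomorphic maps from the complex plane to `X ∩ Z`, for the projective sets `X = {F = 0}`
and `Z = {G = 0}`, factor through rational curves: they are constant or factor through a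
holomorphic map from the projective line to projective space. For example, `X ∩ Z` may be empty, or
a finite union of rational curves and of curves of genus at least two. -/
def RationalCurvesOnly {ι' : Type} (F : ι → MvPolynomial (Fin (n + 1)) ℂ)
    (G : ι' → MvPolynomial (Fin (n + 1)) ℂ) : Prop :=
  ∀ f : ℂ → ℙ ℂ (Fin (n + 1) → ℂ), HolIn F f → (∀ z, (f z).rep ∈ Cone G) →
    (∀ z w, f z = f w) ∨ ThroughLine f

/-- The length of `u ∧ v`. -/
noncomputable def wedge (u v : Fin (n + 1) → ℂ) : ℝ :=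
  √((∑ i, ∑ j, ‖u i * v j - u j * v i‖ ^ 2) / 2)

/-- The length of the derivative of the curve `f` in projective space, with respect to the
Fubini-Study metric, is everywhere at least `c` and at most `C`; in local homogeneous coordinates
`g` this length is `|g ∧ g'| / |g| ^ 2`. -/
def DerBetween (c C : ℝ) (f : ℂ → ℙ ℂ (Fin (n + 1) → ℂ)) : Prop :=
  ∀ (V : Set ℂ) (g : ℂ → Fin (n + 1) → ℂ), IsOpen V → DifferentiableOn ℂ g V →
    (∀ w ∈ V, ∃ h : g w ≠ 0, f w = Projectivization.mk ℂ (g w) h) →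
    ∀ z ∈ V, c * ∑ k, ‖g z k‖ ^ 2 ≤ wedge (g z) (deriv g z) ∧
      wedge (g z) (deriv g z) ≤ C * ∑ k, ‖g z k‖ ^ 2

/-- The curve `f` is doubly periodic: it is the composition of the projection from the plane to an
elliptic curve and a holomorphic map from the elliptic curve. -/
def DoublyPeriodic (f : ℂ → ℙ ℂ (Fin (n + 1) → ℂ)) : Prop :=
  ∃ L : PeriodPair, ∀ l ∈ L.lattice, ∀ z, f (z + l) = f z

end Pool.Agent.N155.BB
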