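import Pool.Agent.N155.B.Geo

/-! Entire curves whose derivative is bounded above and below. -/

set_option autoImplicit false

open Filter Topology Metric Set MvPolynomial LinearAlgebra.Projectivization

namespace Pool.Agent.N155.BB

open Pool.Agent.Y190.OP Pool.Agent.W602.GT Pool.Agent.N155

variable {n : ℕ} {ι ι' : Type} {F : ι → MvPolynomial (Fin (n + 1)) ℂ}
  {G : ι' → MvPolynomial (Fin (n + 1)) ℂ} {d : ℕ}
  {κ : Type} {η : κ → (Fin (n + 1) → ℂ) → (Fin (n + 1) → ℂ) → (Fin (n + 1) → ℂ) → ℂ}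

/-! ### the metrics -/

theorem wedge_nonneg (u v : Fin (n + 1) → ℂ) : 0 ≤ wedge u v := Real.sqrt_nonneg _

theorem le_wedge (u v : Fin (n + 1) → ℂ) (i j : Fin (n + 1)) :
    ‖u i * v j - u j * v i‖ ≤ 2 * wedge u v := by
  have h1 : ‖u i * v j - u j * v i‖ ^ 2 ≤ ∑ i, ∑ j, ‖u i * v j - u j * v i‖ ^ 2 := by
    refine le_trans ?_ (Finset.single_le_sum (f := fun i => ∑ j, ‖u i * v j - u j * v i‖ ^ 2)
      (fun _ _ => Finset.sum_nonneg fun _ _ => by positivity) (Finset.mem_univ i))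
    exact Finset.single_le_sum (f := fun j => ‖u i * v j - u j * v i‖ ^ 2)
      (fun _ _ => by positivity) (Finset.mem_univ j)
  have h2 : wedge u v ^ 2 = (∑ i, ∑ j, ‖u i * v j - u j * v i‖ ^ 2) / 2 := by
    unfold wedge
    rw [Real.sq_sqrt]
    exact div_nonneg (Finset.sum_nonneg fun _ _ => Finset.sum_nonneg fun _ _ => by positivity)
      zero_le_two
  have h3 := wedge_nonneg u v
  nlinarith [norm_nonneg (u i * v j - u j * v i)]

theorem wedge_le {u v : Fin (n + 1) → ℂ} {M : ℝ} (hM : 0 ≤ M)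
    (h : ∀ i j, ‖u i * v j - u j * v i‖ ≤ M) : wedge u v ≤ (n + 1) * M := by
  unfold wedge
  rw [Real.sqrt_le_left (by positivity)]
  have h1 : ∑ i, ∑ j, ‖u i * v j - u j * v i‖ ^ 2 ≤ ((n : ℝ) + 1) ^ 2 * M ^ 2 := by
    have h2 : ∀ i, ∑ j, ‖u i * v j - u j * v i‖ ^ 2 ≤ ((n : ℝ) + 1) * M ^ 2 := by
      intro i
      refine (Finset.sum_le_card_nsmul _ _ (M ^ 2) fun j _ => ?_).trans ?_
      · exact pow_le_pow_left₀ (norm_nonneg _) (h i j) 2
      · simp
    refine (Finset.sum_le_card_nsmul _ _ _ fun i _ => h2 i).trans ?_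
    simp only [Finset.card_univ, Fintype.card_fin, nsmul_eq_mul, Nat.cast_add, Nat.cast_one]
    nlinarith
  have h2 : 0 ≤ ∑ i, ∑ j, ‖u i * v j - u j * v i‖ ^ 2 :=
    Finset.sum_nonneg fun _ _ => Finset.sum_nonneg fun _ _ => by positivity
  rw [mul_pow]
  linarith

theorem deriv_apply {g : ℂ → Fin (n + 1) → ℂ} {V : Set ℂ} (hV : IsOpen V)
    (hg : DifferentiableOn ℂ g V) {z : ℂ} (hz : z ∈ V) (j : Fin (n + 1)) :
    deriv g z j = deriv (fun w => g w j) z :=
  ((hasDerivAt_pi.1 ((hg z hz).differentiableAt (hV.mem_nhds hz)).hasDerivAt j).deriv).symm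

theorem sum_pos {v : Fin (n + 1) → ℂ} (hv : v ≠ 0) : 0 < ∑ k, ‖v k‖ ^ 2 := by
  obtain ⟨k, hk⟩ := Function.ne_iff.1 hv
  refine lt_of_lt_of_le (b := ‖v k‖ ^ 2) (by
    have := norm_pos_iff.2 hk
    positivity) ?_
  exact Finset.single_le_sum (f := fun l => ‖v l‖ ^ 2) (fun _ _ => by positivity)
    (Finset.mem_univ k)

/-- the derivative of the curve of matrices is bounded by the derivative of the curve -/
theorem fderiv_le (n : ℕ) : ∃ A : ℝ, 0 < A ∧ ∀ (f : ℂ → ℙ ℂ (Fin (n + 1) → ℂ)) (V : Set ℂ)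
    (g : ℂ → Fin (n + 1) → ℂ), IsOpen V → DifferentiableOn ℂ g V →
    (∀ w ∈ V, ∃ h : g w ≠ 0, f w = Projectivization.mk ℂ (g w) h) → ∀ z ∈ V, ∀ C : ℝ, 0 ≤ C →
    (∀ i j, ‖g z i * deriv (fun w => g w j) z - g z j * deriv (fun w => g w i) z‖ ≤
      C * ∑ k, ‖g z k‖ ^ 2) → ‖fderiv ℝ (fun z => Phi (f z).rep) z‖ ≤ A * C := by
  set Kc : Set (Fin (n + 1) → ℂ) := closedBall 0 1 ∩ ⋃ i, {v | v i = 1} with hKc
  have hcomp : IsCompact Kc := (isCompact_closedBall 0 1).inter_right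
    (isClosed_iUnion_of_finite fun i => isClosed_eq (continuous_apply i) continuous_const)
  have hne : ∀ v ∈ Kc, v ≠ 0 := by
    rintro v ⟨-, hv⟩ rfl
    obtain ⟨i, hi⟩ := mem_iUnion.1 hv
    exact zero_ne_one hi
  have hco : ContinuousOn (fderiv ℝ (Phi : (Fin (n + 1) → ℂ) → Mat (n + 1))) Kc := fun v hv =>
    (((contDiffAt_Phi (hne v hv)).fderiv_right (m := 0) (by norm_num)).continuousAt).continuousWithinAt
  obtain ⟨L, hL⟩ := hcomp.exists_bound_of_continuousOn hco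
  refine ⟨(|L| + 1) * (n + 1), by positivity, fun f V g hV hg hfg z hzV C hC hb => ?_⟩
  have hgz : g z ≠ 0 := (hfg z hzV).1
  obtain ⟨i, hi⟩ := Finite.exists_max fun i => ‖g z i‖
  have hgi : g z i ≠ 0 := by
    intro h0
    apply hgz
    funext j
    have := hi j
    rw [h0, norm_zero] at this
    exact norm_le_zero_iff.1 this
  have hdg : DifferentiableAt ℂ g z := (hg z hzV).differentiableAt (hV.mem_nhds hzV)
  have hdj : ∀ j, HasDerivAt (fun w => g w j) (deriv (fun w => g w j) z) z := fun j =>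
    (differentiableAt_pi.1 hdg j).hasDerivAt
  set v : ℂ → Fin (n + 1) → ℂ := fun w => (g w i)⁻¹ • g w with hv
  set v' : Fin (n + 1) → ℂ := fun j => (g z i * deriv (fun w => g w j) z -
    g z j * deriv (fun w => g w i) z) / (g z i) ^ 2 with hv'
  have hvd : HasDerivAt v v' z := by
    rw [hasDerivAt_pi]
    intro j
    have h1 := ((hdj i).inv hgi).mul (hdj j)
    refine h1.congr_deriv ?_
    have h2 : (fun w => g w i)⁻¹ z = (g z i)⁻¹ := rfl
    rw [hv', h2]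
    field_simp
    ring
  have hvz : v z ∈ Kc := by
    constructor
    · rw [mem_closedBall_zero_iff, pi_norm_le_iff_of_nonneg zero_le_one]
      intro j
      change ‖(g z i)⁻¹ * g z j‖ ≤ 1
      rw [norm_mul, norm_inv, inv_mul_le_iff₀ (norm_pos_iff.2 hgi), mul_one]
      exact hi j
    · exact mem_iUnion.2 ⟨i, inv_mul_cancel₀ hgi⟩
  have hv'b : ‖v'‖ ≤ C * (n + 1) := by
    rw [pi_norm_le_iff_of_nonneg (by positivity)]
    intro j
    rw [hv', norm_div, norm_pow, div_le_iff₀ (by positivity)]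
    refine (hb i j).trans ?_
    have h1 : ∑ k, ‖g z k‖ ^ 2 ≤ (n + 1) * ‖g z i‖ ^ 2 := by
      refine (Finset.sum_le_card_nsmul _ _ (‖g z i‖ ^ 2) fun k _ => ?_).trans ?_
      · exact pow_le_pow_left₀ (norm_nonneg _) (hi k) 2
      · simp
    calc C * ∑ k, ‖g z k‖ ^ 2 ≤ C * ((n + 1) * ‖g z i‖ ^ 2) := mul_le_mul_of_nonneg_left h1 hC
      _ = _ := by ring
  have hcong : (fun w => Phi (f w).rep) =ᶠ[𝓝 z] fun w => Phi (v w) := by
    have hci : ContinuousAt (fun w => g w i) z := (hdj i).continuousAt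
    filter_upwards [hV.mem_nhds hzV, hci.eventually_ne hgi] with w hw hwi
    obtain ⟨h0, he⟩ := hfg w hw
    rw [he, Phi_rep_mk, hv]
    exact (Phi_smul (inv_ne_zero hwi) _).symm
  rw [hcong.fderiv_eq]
  have hPd : DifferentiableAt ℝ (Phi : (Fin (n + 1) → ℂ) → Mat (n + 1)) (v z) :=
    (contDiffAt_Phi (hne _ hvz)).differentiableAt (by norm_num)
  have h3 := hvd.hasFDerivAt.restrictScalars ℝ
  have h4 := (hPd.hasFDerivAt.comp z h3).fderiv
  change ‖fderiv ℝ (Phi ∘ v) z‖ ≤ _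
  rw [h4]
  refine ContinuousLinearMap.opNorm_le_bound _ (by positivity) fun x => ?_
  rw [ContinuousLinearMap.comp_apply]
  refine (ContinuousLinearMap.le_opNorm _ _).trans ?_
  have h5 : ‖(ContinuousLinearMap.toSpanSingleton ℂ v').restrictScalars ℝ x‖ ≤
      C * (n + 1) * ‖x‖ := by
    rw [ContinuousLinearMap.coe_restrictScalars', ContinuousLinearMap.toSpanSingleton_apply,
      norm_smul, mul_comm]
    exact mul_le_mul_of_nonneg_right hv'b (norm_nonneg _)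
  have h6 : ‖fderiv ℝ (Phi : (Fin (n + 1) → ℂ) → Mat (n + 1)) (v z)‖ ≤ |L| + 1 :=
    ((hL _ hvz).trans (le_abs_self L)).trans (by linarith)
  calc _ ≤ (|L| + 1) * (C * (n + 1) * ‖x‖) := mul_le_mul h6 h5 (norm_nonneg _) (by positivity)
    _ = _ := by ring

/-- the two metrics -/
theorem wedge_fderiv (n : ℕ) : ∃ A : ℝ, 0 < A ∧ ∀ f : ℂ → ℙ ℂ (Fin (n + 1) → ℂ), HolMap f →
    ∀ (V : Set ℂ) (g : ℂ → Fin (n + 1) → ℂ), IsOpen V → DifferentiableOn ℂ g V →
    (∀ w ∈ V, ∃ h : g w ≠ 0, f w = Projectivization.mk ℂ (g w) h) → ∀ z ∈ V,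
    ‖fderiv ℝ (fun z => Phi (f z).rep) z‖ * ∑ k, ‖g z k‖ ^ 2 ≤ A * wedge (g z) (deriv g z) ∧
    wedge (g z) (deriv g z) ≤ A * ‖fderiv ℝ (fun z => Phi (f z).rep) z‖ * ∑ k, ‖g z k‖ ^ 2 := by
  obtain ⟨A, hA, hfd⟩ := fderiv_le n
  refine ⟨max (2 * A) (4 * ((n : ℝ) + 1) ^ 3), by positivity, fun f hf V g hV hg hfg z hz => ?_⟩
  have hS := sum_pos (hfg z hz).1
  have hdj := fun j => deriv_apply hV hg hz j
  constructor
  · have h1 := hfd f V g hV hg hfg z hz (2 * wedge (g z) (deriv g z) / ∑ k, ‖g z k‖ ^ 2)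
      (div_nonneg (mul_nonneg zero_le_two (wedge_nonneg _ _)) hS.le) (fun i j => by
        rw [div_mul_cancel₀ _ hS.ne', ← hdj i, ← hdj j]
        exact le_wedge _ _ i j)
    rw [← mul_div_assoc, le_div_iff₀ hS] at h1
    refine h1.trans ?_
    rw [← mul_assoc]
    exact mul_le_mul_of_nonneg_right (by
      rw [mul_comm]
      exact le_max_left _ _) (wedge_nonneg _ _)
  · have h1 := derBound_of_fderiv (f := f) (z := z) (C := ‖fderiv ℝ (fun z => Phi (f z).rep) z‖)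
      le_rfl ((holP_of_map hf).differentiableAt (mem_univ z)) V g hV hz hg hfg
    have h2 : wedge (g z) (deriv g z) ≤ ((n : ℝ) + 1) *
        (4 * ‖fderiv ℝ (fun z => Phi (f z).rep) z‖ * ((n : ℝ) + 1) ^ 2 * ∑ k, ‖g z k‖ ^ 2) := by
      apply wedge_le (by positivity)
      intro i j
      rw [hdj i, hdj j]
      exact h1 i j
    refine h2.trans ?_
    have h3 : ((n : ℝ) + 1) * (4 * ‖fderiv ℝ (fun z => Phi (f z).rep) z‖ * ((n : ℝ) + 1) ^ 2 *
        ∑ k, ‖g z k‖ ^ 2) = (4 * ((n : ℝ) + 1) ^ 3) *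
        (‖fderiv ℝ (fun z => Phi (f z).rep) z‖ * ∑ k, ‖g z k‖ ^ 2) := by ring
    rw [h3, mul_assoc (max _ _)]
    exact mul_le_mul_of_nonneg_right (le_max_right _ _) (by positivity)

/-! ### the classes of curves -/

/-- the curves in `T` whose derivative is bounded above and below -/
structure BCw {N : ℕ} (T : Set (Mat N)) (c0 : ℝ) (φ : ℂ → Mat N) : Prop where
  hol : HolP univ φ
  mem : ∀ z, φ z ∈ T
  bd : ∀ z, ‖fderiv ℝ φ z‖ ≤ 2
  low : ∀ z, c0 ≤ ‖fderiv ℝ φ z‖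

theorem BCw.cls {N : ℕ} {T : Set (Mat N)} (hT : IsCompact T) (hTP : T ⊆ PM) {c0 : ℝ}
    (hc0 : 0 < c0) : Cls T c0 (BCw T c0) where
  comp := hT
  sub := hTP
  pos := hc0
  hol := fun φ h => h.hol
  mem := fun φ h => h.mem
  bd := fun φ h => h.bd
  low := fun φ h => h.low
  shift := fun φ h t => ⟨holP_shift h.hol t, fun z => h.mem _,
    fun z => by rw [fderiv_shift]; exact h.bd _, fun z => by rw [fderiv_shift]; exact h.low _⟩
  lim := fun 𝓤 P hP => by
    obtain ⟨φ, h1, h2, h3, h4⟩ := exists_limit hT hTP (𝓤 := 𝓤) (K := 2)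
      (fun m => (hP m).hol) (fun m => (hP m).mem) (fun m => (hP m).bd)
    exact ⟨φ, ⟨h1, h2, fun z => le_of_tendsto (h4 z).norm
      (Eventually.of_forall fun m => (hP m).bd z), fun z => ge_of_tendsto (h4 z).norm
      (Eventually.of_forall fun m => (hP m).low z)⟩, h3⟩

/-- curves in the exceptional set -/
def NoBC (F : ι → MvPolynomial (Fin (n + 1)) ℂ) (G : ι' → MvPolynomial (Fin (n + 1)) ℂ) : Prop :=
  ∀ f : ℂ → ℙ ℂ (Fin (n + 1) → ℂ), HolIn F f → (∀ z, (f z).rep ∈ Cone G) →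
    ∀ c C : ℝ, 0 < c → ¬ DerBetween c C f

theorem NoBC.out (hF : ∀ i, IsForm (F i)) (hG : ∀ i, IsForm (G i)) (h : NoBC F G) {c0 : ℝ}
    (hc0 : 0 < c0) {φ : ℂ → Mat (n + 1)} (hφ : BCw (TF F) c0 φ) : ∃ z, φ z ∉ TF G := by
  by_contra hcon
  push Not at hcon
  obtain ⟨A, hA, hw⟩ := wedge_fderiv n
  have hh := holMap_of hφ.hol
  have hphi : (fun z => Phi (toProj (φ z)).rep) = φ := funext fun z =>
    Phi_rep_toProj (TF_PM (hφ.mem z))
  refine h (fun z => toProj (φ z)) ⟨hh, fun z => rep_toProj hF (hφ.mem z)⟩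
    (fun z => rep_toProj hG (hcon z)) (c0 / A) (A * 2) (by positivity) ?_
  intro V g hV hg hfg z hz
  obtain ⟨h1, h2⟩ := hw _ hh V g hV hg hfg z hz
  rw [hphi] at h1 h2
  have hS := (sum_pos (hfg z hz).1).le
  constructor
  · rw [div_mul_eq_mul_div, div_le_iff₀ hA, mul_comm (wedge _ _)]
    exact (mul_le_mul_of_nonneg_right (hφ.low z) hS).trans h1
  · exact h2.trans (mul_le_mul_of_nonneg_right (mul_le_mul_of_nonneg_left (hφ.bd z) hA.le) hS)

/-- periods -/
theorem pair_periods {X : Type*} {f : ℂ → X} {p q : ℂ} (hind : LinearIndependent ℝ ![p, q])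
    (hp : ∀ z, f (z + p) = f z) (hq : ∀ z, f (z + q) = f z) :
    ∃ L : PeriodPair, ∀ l ∈ L.lattice, ∀ z, f (z + l) = f z := by
  refine ⟨⟨p, q, hind⟩, fun l hl z => ?_⟩
  have hn : ∀ {p : ℂ}, (∀ z, f (z + p) = f z) → ∀ (k : ℕ) (z : ℂ), f (z + k * p) = f z := by
    intro p hp k
    induction k with
    | zero => intro z; simp
    | succ k ih =>
      intro z
      have e : z + ((k + 1 : ℕ) : ℂ) * p = z + k * p + p := by
        push_cast
        ring
      rw [e, hp, ih]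
  have hi : ∀ {p : ℂ}, (∀ z, f (z + p) = f z) → ∀ (k : ℤ) (z : ℂ), f (z + k * p) = f z := by
    intro p hp k z
    obtain ⟨j, rfl | rfl⟩ := k.eq_nat_or_neg
    · have := hn hp j z
      simpa using this
    · have := hn hp j (z + ((-(j : ℤ) : ℤ) : ℂ) * p)
      rw [← this]
      congr 1
      push_cast
      ring
  obtain ⟨i, j, rfl⟩ := PeriodPair.mem_lattice.1 hl
  rw [← add_assoc]
  have h1 := hi hq j (z + i * p)
  have h2 := hi hp i z
  exact h1.trans h2

/-- **Finiteness of the curves whose derivative is bounded above and below.** -/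
theorem finite_curves (hX : ProjManifold F d) (hG : ∀ i, IsForm (G i))
    (hη : PositiveTwoForms (Cone F) (Cone G) d η) (hZ : NoBC F G) (K : ℝ) :
    ∃ S : Finset (ℂ → ℙ ℂ (Fin (n + 1) → ℂ)), (∀ g ∈ S, HolIn F g ∧ DoublyPeriodic g) ∧
      ∀ f, HolIn F f → ∀ c : ℝ, 0 < c → DerBetween c (K * c) f →
        ∃ g ∈ S, ∃ a b : ℂ, a ≠ 0 ∧ ∀ z, f z = g (a * z + b) := by
  classical
  obtain ⟨A, hA, hw⟩ := wedge_fderiv n
  have hgw := gw_of hX hG hη
  have hFD : ∀ (f : ℂ → ℙ ℂ (Fin (n + 1) → ℂ)), HolIn F f → ∀ c : ℝ, DerBetween c (K * c) f →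
      ∀ z, c / A ≤ ‖fderiv ℝ (fun z => Phi (f z).rep) z‖ ∧
        ‖fderiv ℝ (fun z => Phi (f z).rep) z‖ ≤ A * (K * c) := by
    intro f hf c hb z
    obtain ⟨V, g, hV, hzV, hg, hfg⟩ := hf.1 z
    obtain ⟨h1, h2⟩ := hw f hf.1 V g hV hg hfg z hzV
    obtain ⟨h3, h4⟩ := hb V g hV hg hfg z hzV
    have hS := sum_pos (hfg z hzV).1
    constructor
    · rw [div_le_iff₀ hA]
      have h5 := h3.trans h2
      have h6 := le_of_mul_le_mul_right h5 hS
      linarith
    · have h5 := h1.trans (mul_le_mul_of_nonneg_left h4 hA.le)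
      rw [← mul_assoc] at h5
      exact le_of_mul_le_mul_right h5 hS
  by_cases hK : K ≤ 0
  · refine ⟨∅, fun g hg => absurd hg (Finset.notMem_empty _), fun f hf c hc hb => ?_⟩
    exfalso
    obtain ⟨h1, h2⟩ := hFD f hf c hb 0
    have h3 : 0 < c / A := by positivity
    have h4 : A * (K * c) ≤ 0 := by
      have : K * c ≤ 0 := mul_nonpos_of_nonpos_of_nonneg hK hc.le
      nlinarith
    linarith
  push Not at hK
  set c0 : ℝ := 2 / (A * A * K) with hc0
  have hc0p : 0 < c0 := by positivity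
  have hcls := BCw.cls (isCompact_TF hX.form) (TF_PM (F := F)) hc0p
  have hout : ∀ φ, BCw (TF F) c0 φ → ∃ z, φ z ∉ TF G := fun φ hφ => hZ.out hX.form hG hc0p hφ
  obtain ⟨S, hS1, hS2⟩ := finite_class hgw hout hcls
  refine ⟨S.image fun φ z => toProj (φ z), fun g hg => ?_, fun f hf c hc hb => ?_⟩
  · obtain ⟨φ, hφ, rfl⟩ := Finset.mem_image.1 hg
    have h1 := hS1 φ hφ
    obtain ⟨p, q, hind, hp, hq⟩ := two_periods hgw hout hcls h1
    refine ⟨⟨holMap_of h1.hol, fun z => rep_toProj hX.form (h1.mem z)⟩, ?_⟩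
    obtain ⟨L, hL⟩ := pair_periods hind hp hq
    exact ⟨L, fun l hl z => by
      change toProj (φ (z + l)) = toProj (φ z)
      rw [hL l hl z]⟩
  · set ρ : ℝ := 2 / (A * (K * c)) with hρ
    have hρ0 : 0 < ρ := by positivity
    have hhol := holP_of_map hf.1
    have hmem : BCw (TF F) c0 (fun z => Phi (f (aff 0 ρ z)).rep) := by
      have hnorm : ∀ z, ‖fderiv ℝ (fun z => Phi (f (aff 0 ρ z)).rep) z‖ =
          ρ * ‖fderiv ℝ (fun z => Phi (f z).rep) (aff 0 ρ z)‖ := fun z =>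
        norm_fderiv_aff (Ψ := fun z => Phi (f z).rep) hρ0.le
          (hhol.differentiableAt (mem_univ _))
      refine ⟨?_, fun z => mem_TF (hf.2 _), fun z => ?_, fun z => ?_⟩
      · have := hhol.aff 0 ρ
        rwa [preimage_univ] at this
      · rw [hnorm, hρ, div_mul_eq_mul_div, div_le_iff₀ (by positivity)]
        have := (hFD f hf c hb (aff 0 ρ z)).2
        linarith
      · rw [hnorm, hρ, hc0]
        have h1 := (hFD f hf c hb (aff 0 ρ z)).1
        have h2 : 2 / (A * A * K) = 2 / (A * (K * c)) * (c / A) := by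
          field_simp
        rw [h2]
        exact mul_le_mul_of_nonneg_left h1 (by positivity)
    obtain ⟨φ, hφ, α, β, hαβ⟩ := hS2 _ hmem
    obtain ⟨hα, -⟩ := hcls.alpha hmem (hS1 φ hφ) hαβ
    have hα0 : α ≠ 0 := by
      intro h0
      rw [h0, norm_zero] at hα
      linarith
    have hρc : (ρ : ℂ) ≠ 0 := by exact_mod_cast hρ0.ne'
    refine ⟨_, Finset.mem_image_of_mem _ hφ, α / ρ, β, div_ne_zero hα0 hρc, fun z => ?_⟩
    have h1 := hαβ (z / ρ)
    rw [aff0 hρ0.ne'] at h1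
    have h2 : α / ρ * z + β = α * (z / ρ) + β := by ring
    rw [h2, ← h1, toProj_Phi_rep]

end Pool.Agent.N155.BB
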