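import Pool.Agent.N155.A.Pd
import Pool.Agent.N155.B.Sq

/-! The curves in a class: periods and finiteness. -/

set_option autoImplicit false

open Filter Topology Metric Set MvPolynomial

namespace Pool.Agent.N155.BB

open Pool.Agent.Y190.OP Pool.Agent.W602.GT Pool.Agent.TH143.GT Pool.Agent.N155

variable {N : ℕ} {T Z : Set (Mat N)} {κ : Type}
  {ω : κ → (Fin N → ℂ) → (Fin N → ℂ) → (Fin N → ℂ) → ℂ}
  {c0 : ℝ} {𝒞 : (ℂ → Mat N) → Prop}

/-- **Separation** of the curves in the class, with all the constants chosen. -/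
theorem sep_class (hG : GW T Z ω) (hZ : ∀ φ, 𝒞 φ → ∃ z, φ z ∉ Z)
    (h : Cls T c0 𝒞) : ∃ r c1 : ℝ, 0 < r ∧ r ≤ c0 / 4 ∧ 0 < c1 ∧
    Inj r c1 𝒞 ∧ ∀ P Q : ℕ → ℂ → Mat N, (∀ m, 𝒞 (P m)) → (∀ m, 𝒞 (Q m)) → ∀ H : ℂ → Mat N,
      CConv (hyperfilter ℕ : Filter ℕ) univ P H → CConv (hyperfilter ℕ : Filter ℕ) univ Q H →
      ∀ᶠ m in (hyperfilter ℕ : Filter ℕ), ∃ α β : ℂ, ‖β‖ ≤ r / 8 ∧
        ∀ z, P m z = Q m (α * z + β) := by
  have hc0 := h.pos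
  obtain ⟨r0, c1, hr0, hc1, hinj0⟩ := h.inj
  set r : ℝ := min r0 (c0 / 4) with hrdef
  have hr : 0 < r := by positivity
  have hi : Inj r c1 𝒞 := by
    intro φ hφ z t ht
    exact hinj0 φ hφ z t (ht.trans (by linarith [min_le_left r0 (c0 / 4)]))
  obtain ⟨η0, hη0, hule⟩ := h.ule hr
  set η : ℝ := min (min (η0 / 2) 1) (min (r / 8) (min (c0 * (r / 16)) (c1 * (r / 32)))) with hηdef
  have hη : 0 < η := by positivity
  have e1 : η ≤ η0 / 2 := (min_le_left _ _).trans (min_le_left _ _)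
  have e2 : η ≤ 1 := (min_le_left _ _).trans (min_le_right _ _)
  have e3 : η ≤ r / 8 := (min_le_right _ _).trans (min_le_left _ _)
  have e4 : η ≤ c0 * (r / 16) := (min_le_right _ _).trans ((min_le_right _ _).trans
    (min_le_left _ _))
  have e5 : η ≤ c1 * (r / 32) := (min_le_right _ _).trans ((min_le_right _ _).trans
    (min_le_right _ _))
  have hηc : 2 / c0 * η ≤ r / 8 := by
    rw [div_mul_eq_mul_div, div_le_iff₀ hc0]
    linarith
  have hηη : η < η0 := by linarith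
  obtain ⟨ρ, δ, θ, hρ, hδ, hθ0, hθ, hCT⟩ := contr_w hG hZ h hi hr hc1 hη (by linarith) hηη hule
  refine ⟨r, c1, hr, min_le_right _ _, hc1, hi, fun P Q hP hQ H h1 h2 => ?_⟩
  exact sep_aff h hi hr hc1 hη e2 e3 hηc (by linarith) hηη hule hCT hP hQ hρ hδ hθ0 hθ h1 h2

/-- **Periods.** -/
theorem period_aff (hG : GW T Z ω) (hZ : ∀ φ, 𝒞 φ → ∃ z, φ z ∉ Z)
    (h : Cls T c0 𝒞) {f : ℂ → Mat N} (hf : 𝒞 f) (ζ : ℂ) :
    ∃ (p : ℂ) (k : ℝ), 1 ≤ k ∧ ‖p - k * ζ‖ ≤ 1 / 4 ∧ ∀ z, f (z + p) = f z := by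
  have hc0 := h.pos
  obtain ⟨r, c1, hr, hrc, hc1, hi, hsp⟩ := sep_class hG hZ h
  have hψ : ∀ m : ℕ, 𝒞 (fun w => f (m * ζ + w)) := fun m => h.shift f hf _
  obtain ⟨χ, hχ, hlim⟩ := h.lim (hyperfilter ℕ) _ hψ
  have hQlim : CConv (hyperfilter ℕ : Filter ℕ) univ (fun _ => χ) χ := by
    intro z _
    have h1 : ContinuousAt χ z := (h.hol χ hχ).continuousAt (mem_univ z)
    exact h1.tendsto.comp tendsto_snd
  have hsep := hsp _ _ hψ (fun _ => hχ) _ hlim hQlim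
  obtain ⟨m, α, β, hβ, hm⟩ := hsep.exists
  obtain ⟨m', ⟨α', β', hβ', hm'⟩, hmm⟩ := (hsep.and (hyp_ge ((m : ℝ) + 1))).exists
  obtain ⟨hα1, -⟩ := h.alpha (hψ m) hχ hm
  have hα : α ≠ 0 := by
    intro h0
    rw [h0, norm_zero] at hα1
    linarith
  -- the symmetry
  have hsym : ∀ w, f w = f (α' / α * w + (m * ζ - α' / α * (m' * ζ) + (β' - β) / α)) := by
    intro w
    have h1 := hm' (w - m' * ζ)
    have h2 := hm (α' / α * (w - m' * ζ) + (β' - β) / α)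
    have k1 : (m' : ℂ) * ζ + (w - m' * ζ) = w := by ring
    have k2 : α * (α' / α * (w - m' * ζ) + (β' - β) / α) + β = α' * (w - m' * ζ) + β' := by
      field_simp
      ring
    have k3 : (m : ℂ) * ζ + (α' / α * (w - m' * ζ) + (β' - β) / α) =
        α' / α * w + (m * ζ - α' / α * (m' * ζ) + (β' - β) / α) := by ring
    simp only [k1] at h1
    simp only [k2, k3] at h2
    rw [h1, h2]
  have hone := affsym hi hr hc1 hf hsym
  have hsym' : ∀ w, f w = f (w + (m * ζ - m' * ζ + (β' - β) / α)) := by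
    intro w
    have h1 := hsym w
    rwa [hone, one_mul, one_mul] at h1
  refine ⟨m' * ζ - m * ζ - (β' - β) / α, (m' : ℝ) - m, by linarith, ?_, fun z => ?_⟩
  · have h1 : m' * ζ - m * ζ - (β' - β) / α - ((m' : ℝ) - m : ℝ) * ζ = -((β' - β) / α) := by
      push_cast
      ring
    rw [h1, norm_neg, norm_div, div_le_iff₀ (norm_pos_iff.2 hα)]
    have h2 := norm_sub_le β' β
    linarith
  · rw [hsym' (z + (m' * ζ - m * ζ - (β' - β) / α))]
    congr 1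
    ring

/-- **Double periodicity.** -/
theorem two_periods (hG : GW T Z ω) (hZ : ∀ φ, 𝒞 φ → ∃ z, φ z ∉ Z)
    (h : Cls T c0 𝒞) {f : ℂ → Mat N} (hf : 𝒞 f) :
    ∃ p q : ℂ, LinearIndependent ℝ ![p, q] ∧ (∀ z, f (z + p) = f z) ∧ ∀ z, f (z + q) = f z := by
  obtain ⟨p, k, hk, hpk, hp⟩ := period_aff hG hZ h hf 1
  obtain ⟨q, l, hl, hql, hq⟩ := period_aff hG hZ h hf Complex.I
  exact ⟨p, q, indep_of_close hk hl hpk hql, hp, hq⟩

/-- **Finiteness.** -/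
theorem finite_class (hG : GW T Z ω) (hZ : ∀ φ, 𝒞 φ → ∃ z, φ z ∉ Z)
    (h : Cls T c0 𝒞) : ∃ S : Finset (ℂ → Mat N), (∀ g ∈ S, 𝒞 g) ∧
    ∀ f, 𝒞 f → ∃ g ∈ S, ∃ α β : ℂ, ∀ z, f z = g (α * z + β) := by
  classical
  obtain ⟨r, c1, hr, hrc, hc1, hi, hsp⟩ := sep_class hG hZ h
  by_contra hcon
  push Not at hcon
  obtain ⟨P, hP, hPP⟩ := exists_seq_of_forall_finset_exists (P := 𝒞)
    (r := fun g f => ∀ α β : ℂ, ∃ z, f z ≠ g (α * z + β)) fun S hS => by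
      obtain ⟨f, hf, hf2⟩ := hcon S hS
      exact ⟨f, hf, hf2⟩
  obtain ⟨χ, hχ, hlim⟩ := h.lim (hyperfilter ℕ) P hP
  have hQlim : CConv (hyperfilter ℕ : Filter ℕ) univ (fun _ => χ) χ := by
    intro z _
    have h1 : ContinuousAt χ z := (h.hol χ hχ).continuousAt (mem_univ z)
    exact h1.tendsto.comp tendsto_snd
  have hsep := hsp _ _ hP (fun _ => hχ) _ hlim hQlim
  obtain ⟨m, α, β, hβ, hm⟩ := hsep.exists
  obtain ⟨m', ⟨α', β', hβ', hm'⟩, hmm⟩ := (hsep.and (hyp_ge ((m : ℝ) + 1))).exists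
  have hlt : m < m' := by
    have : (m : ℝ) < m' := by linarith
    exact_mod_cast this
  obtain ⟨hα1, -⟩ := h.alpha (hP m) hχ hm
  have hα : α ≠ 0 := by
    intro h0
    rw [h0, norm_zero] at hα1
    linarith [h.pos]
  obtain ⟨z, hz⟩ := hPP m m' hlt (α' / α) ((β' - β) / α)
  apply hz
  rw [hm' z, hm]
  congr 1
  field_simp
  ring

end Pool.Agent.N155.BB
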