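import Pool.Agent.N155.B.Defs
import Pool.Agent.N155.B.Pd
import Pool.Agent.N155.L.OFin
import Pool.Agent.N155.L.SFin
import Pool.Agent.N155.A.PFin

/-! From projective manifolds to compact sets of projection matrices. -/

set_option autoImplicit false

open Filter Topology Metric Set MvPolynomial LinearAlgebra.Projectivization

namespace Pool.Agent.N155.BB

open Pool.Agent.Y190.OP Pool.Agent.W602.GT Pool.Agent.N155

variable {n : ℕ} {ι ι' : Type} {F : ι → MvPolynomial (Fin (n + 1)) ℂ}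
  {G : ι' → MvPolynomial (Fin (n + 1)) ℂ} {d : ℕ}
  {κ : Type} {η : κ → (Fin (n + 1) → ℂ) → (Fin (n + 1) → ℂ) → (Fin (n + 1) → ℂ) → ℂ}

/-- the set of matrices of a projective set -/
def TF (F : ι → MvPolynomial (Fin (n + 1)) ℂ) : Set (Mat (n + 1)) := Phi '' Cone F

theorem cone_smul (hF : ∀ i, IsForm (F i)) {u : Fin (n + 1) → ℂ} (hu : u ∈ Cone F) {c : ℂ}
    (hc : c ≠ 0) : c • u ∈ Cone F := by
  refine ⟨smul_ne_zero hc hu.1, fun i => ?_⟩
  obtain ⟨e, he⟩ := hF i
  rw [val_eval, eval_smul he, ← val_eval, hu.2 i, mul_zero]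

theorem TF_PM : TF F ⊆ PM := by
  rintro M ⟨u, hu, rfl⟩
  exact ⟨u, hu.1, rfl⟩

theorem Phi_mem (hF : ∀ i, IsForm (F i)) {u : Fin (n + 1) → ℂ} (hu : u ≠ 0) :
    Phi u ∈ TF F ↔ u ∈ Cone F := by
  constructor
  · rintro ⟨v, hv, hvu⟩
    obtain ⟨c, hc, rfl⟩ := Phi_inj hv.1 hu hvu
    exact cone_smul hF hv hc
  · intro h
    exact ⟨u, h, rfl⟩

theorem chart_cone (hF : ∀ i, IsForm (F i)) {M : Mat (n + 1)} (hM : M ∈ TF F) {i : Fin (n + 1)}
    (hi : M i i ≠ 0) : chart i M ∈ Cone F := by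
  obtain ⟨u, hu, rfl⟩ := hM
  have h1 := (Phi_diag_ne hu.1).1 hi
  rw [chart_Phi hu.1 h1]
  exact cone_smul hF hu (inv_ne_zero h1)

theorem isCompact_TF (hF : ∀ i, IsForm (F i)) : IsCompact (TF F) := by
  set S : Set (Fin (n + 1) → ℂ) := sphere 0 1 ∩ {u | ∀ i, eval u (F i) = 0} with hS
  have hcl : IsClosed {u : Fin (n + 1) → ℂ | ∀ i, eval u (F i) = 0} := by
    have h1 : {u : Fin (n + 1) → ℂ | ∀ i, eval u (F i) = 0} = ⋂ i, {u | eval u (F i) = 0} := by
      ext u
      simp only [mem_iInter]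
      rfl
    rw [h1]
    refine isClosed_iInter fun i => ?_
    have h2 : Continuous fun u : Fin (n + 1) → ℂ => eval u (F i) := by
      simp only [eval_eq']
      fun_prop
    exact isClosed_eq h2 continuous_const
  have hSc : IsCompact S := (isCompact_sphere 0 1).inter_right hcl
  have hne : ∀ u ∈ S, u ≠ 0 := by
    rintro u ⟨hu, -⟩ rfl
    rw [mem_sphere, dist_self] at hu
    exact zero_ne_one hu
  have himg : TF F = Phi '' S := by
    ext M
    constructor
    · rintro ⟨u, hu, rfl⟩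
      have hn : (‖u‖ : ℂ) ≠ 0 := by
        have := norm_pos_iff.2 hu.1
        exact_mod_cast this.ne'
      refine ⟨(‖u‖ : ℂ)⁻¹ • u, ⟨?_, fun i => ?_⟩, Phi_smul (inv_ne_zero hn) u⟩
      · rw [mem_sphere, dist_zero_right, norm_smul, norm_inv, Complex.norm_real, norm_norm]
        exact inv_mul_cancel₀ (by exact_mod_cast hn)
      · have h1 := (cone_smul hF hu (inv_ne_zero hn)).2 i
        rwa [val_eval] at h1
    · rintro ⟨u, hu, rfl⟩
      exact ⟨u, ⟨hne u hu, fun i => by rw [val_eval]; exact hu.2 i⟩, rfl⟩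
  rw [himg]
  exact hSc.image_of_continuousOn fun u hu => (continuousAt_Phi (hne u hu)).continuousWithinAt

/-- the geometric data -/
theorem gw_of (hX : ProjManifold F d) (hG : ∀ i, IsForm (G i))
    (hη : PositiveTwoForms (Cone F) (Cone G) d η) : GW (TF F) (TF G) η where
  closed := (isCompact_TF hG).isClosed
  homog := fun M hM i hi q v w c e f g hc =>
    hη.twist q _ (chart_cone hX.form hM hi) v w c e f g hc
  loc := by
    intro M0 hM0
    obtain ⟨x0, hx0, rfl⟩ := hM0
    obtain ⟨i, J, U, Ψ, hxi, hU, hxU, hΨ, hΨX, hev⟩ := hX.smooth x0 hx0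
    have hi : Phi x0 i i ≠ 0 := (Phi_diag_ne hx0.1).2 hxi
    have hch : chart i (Phi x0) = (x0 i)⁻¹ • x0 := chart_Phi hx0.1 hxi
    have hξ0 : (fun k => chart i (Phi x0) (J k)) = fun k => x0 (J k) / x0 i := by
      funext k
      rw [hch, Pi.smul_apply, smul_eq_mul]
      ring
    have hU0 : (fun k => chart i (Phi x0) (J k)) ∈ U := by rwa [hξ0]
    have hcξ : ContinuousAt (fun (M : Mat (n + 1)) k => chart i M (J k)) (Phi x0) := by
      rw [continuousAt_pi]
      intro k
      exact (continuous_apply (J k)).continuousAt.comp (continuousAt_chart hi)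
    have h2 : ∀ᶠ M : Mat (n + 1) in 𝓝 (Phi x0), M i i ≠ 0 ∧
        (fun k => chart i M (J k)) ∈ U ∧
        (x0 i • chart i M ∈ Cone F → x0 i • chart i M =
          (x0 i • chart i M) i • Ψ (fun k => (x0 i • chart i M) (J k) / (x0 i • chart i M) i)) := by
      refine ((continuous_apply_apply i i).continuousAt.eventually_ne hi).and
        ((hcξ.eventually (hU.mem_nhds hU0)).and ?_)
      have h3 : Tendsto (fun M : Mat (n + 1) => x0 i • chart i M) (𝓝 (Phi x0)) (𝓝 x0) := by
        have h4 := (continuousAt_chart hi).tendsto.const_smul (x0 i)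
        rwa [hch, smul_smul, mul_inv_cancel₀ hxi, one_smul] at h4
      exact h3.eventually hev
    obtain ⟨O, hOs, hO, hMO⟩ := _root_.mem_nhds_iff.1 h2
    refine ⟨i, d, J, O, U, Ψ, hO, hMO, hU, hΨ,
      fun q => hη.hol q _ Ψ hU hΨ fun z hz => (hΨX z hz).1, fun z hz hzZ v u hli => ?_,
      fun M hM => ?_⟩
    · have hz0 : Ψ z ≠ 0 := (hΨX z hz).1.1
      apply hη.pos _ Ψ hU hΨ (fun z hz => (hΨX z hz).1) z hz
        (fun h => hzZ ((Phi_mem hG hz0).2 h)) v u
      have hd1 := (hΨ z hz).differentiableAt.hasFDerivAt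
      have hdi : ∀ v, fderiv ℂ Ψ z v i = 0 := by
        intro v
        have h3 : HasFDerivAt (fun z => Ψ z i) ((ContinuousLinearMap.proj (R := ℂ)
          (φ := fun _ : Fin (n + 1) => ℂ) i).comp (fderiv ℂ Ψ z)) z :=
          (ContinuousLinearMap.proj (R := ℂ) (φ := fun _ : Fin (n + 1) => ℂ) i).hasFDerivAt.comp z
            hd1
        have h4 : HasFDerivAt (fun z => Ψ z i) (0 : (Fin d → ℂ) →L[ℂ] ℂ) z :=
          (hasFDerivAt_const (1 : ℂ) z).congr_of_eventuallyEq (by
            filter_upwards [hU.mem_nhds hz] with z' hz'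
            exact (hΨX z' hz').2.1)
        have h5 := DFunLike.congr_fun (h3.unique h4) v
        exact h5
      have hdJ : ∀ v k, fderiv ℂ Ψ z v (J k) = v k := by
        intro v k
        have h3 : HasFDerivAt (fun z => Ψ z (J k)) ((ContinuousLinearMap.proj (R := ℂ)
          (φ := fun _ : Fin (n + 1) => ℂ) (J k)).comp (fderiv ℂ Ψ z)) z :=
          (ContinuousLinearMap.proj (R := ℂ) (φ := fun _ : Fin (n + 1) => ℂ)
            (J k)).hasFDerivAt.comp z hd1
        have h4 : HasFDerivAt (fun z => Ψ z (J k)) (ContinuousLinearMap.proj (R := ℂ)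
          (φ := fun _ : Fin d => ℂ) k) z :=
          ((ContinuousLinearMap.proj (R := ℂ)
            (φ := fun _ : Fin d => ℂ) k).hasFDerivAt).congr_of_eventuallyEq (by
            filter_upwards [hU.mem_nhds hz] with z' hz'
            exact (hΨX z' hz').2.2 k)
        have h5 := DFunLike.congr_fun (h3.unique h4) v
        exact h5
      rw [LinearIndependent.pair_iff] at hli
      rw [Fintype.linearIndependent_iff]
      intro g hg
      rw [Fin.sum_univ_three] at hg
      change g 0 • Ψ z + g 1 • fderiv ℂ Ψ z v + g 2 • fderiv ℂ Ψ z u = 0 at hg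
      have e0 : g 0 = 0 := by
        have h3 := congrFun hg i
        simp only [Pi.add_apply, Pi.smul_apply, smul_eq_mul, hdi, (hΨX z hz).2.1, mul_zero,
          add_zero, mul_one, Pi.zero_apply] at h3
        exact h3
      have e1 : g 1 • v + g 2 • u = 0 := by
        funext k
        have h3 := congrFun hg (J k)
        simp only [Pi.add_apply, Pi.smul_apply, smul_eq_mul, hdJ, e0, zero_mul, zero_add,
          Pi.zero_apply] at h3 ⊢
        exact h3
      obtain ⟨e2, e3⟩ := hli _ _ e1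
      intro k
      fin_cases k
      · exact e0
      · exact e2
      · exact e3
    · obtain ⟨e1, e3, e4⟩ := hOs hM
      refine ⟨e1, e3, fun hMT => ?_⟩
      have hcone := chart_cone hX.form hMT e1
      have h5 := e4 (cone_smul hX.form hcone hxi)
      have h7 : (fun k => (x0 i • chart i M) (J k) / (x0 i • chart i M) i) =
          fun k => chart i M (J k) := by
        funext k
        rw [Pi.smul_apply, Pi.smul_apply, smul_eq_mul, smul_eq_mul, PM.chart_self e1, mul_one,
          mul_div_cancel_left₀ _ hxi]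
      rw [h7, Pi.smul_apply, smul_eq_mul, PM.chart_self e1, mul_one] at h5
      exact smul_right_injective _ hxi h5

/-! ### maps to projective space -/

theorem ones_ne : (fun _ : Fin (n + 1) => (1 : ℂ)) ≠ 0 := fun h => one_ne_zero (congrFun h 0)

/-- the point of projective space -/
noncomputable def toProj (M : Mat (n + 1)) : ℙ ℂ (Fin (n + 1) → ℂ) := by
  classical
  exact if h : ∃ u : Fin (n + 1) → ℂ, u ≠ 0 ∧ M = Phi u then
    Projectivization.mk ℂ h.choose h.choose_spec.1 else Projectivization.mk ℂ _ ones_ne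

theorem toProj_Phi {u : Fin (n + 1) → ℂ} (hu : u ≠ 0) :
    toProj (Phi u) = Projectivization.mk ℂ u hu := by
  classical
  have h : ∃ v : Fin (n + 1) → ℂ, v ≠ 0 ∧ Phi u = Phi v := ⟨u, hu, rfl⟩
  unfold toProj
  rw [dif_pos h, Projectivization.mk_eq_mk_iff']
  obtain ⟨c, hc, hc'⟩ := Phi_inj hu h.choose_spec.1 h.choose_spec.2
  exact ⟨c, hc'.symm⟩

theorem Phi_rep_mk {u : Fin (n + 1) → ℂ} (hu : u ≠ 0) :
    Phi (Projectivization.mk ℂ u hu).rep = Phi u := by
  obtain ⟨c, hc⟩ := Projectivization.exists_smul_eq_mk_rep ℂ u hu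
  rw [← hc]
  exact Phi_smul c.ne_zero u

theorem Phi_rep_toProj {M : Mat (n + 1)} (hM : M ∈ PM) : Phi (toProj M).rep = M := by
  obtain ⟨u, hu, rfl⟩ := hM
  rw [toProj_Phi hu, Phi_rep_mk]

theorem proj_ext {p q : ℙ ℂ (Fin (n + 1) → ℂ)} (h : Phi p.rep = Phi q.rep) : p = q := by
  obtain ⟨c, hc, hc'⟩ := Phi_inj p.rep_nonzero q.rep_nonzero h
  rw [← p.mk_rep, ← q.mk_rep, Projectivization.mk_eq_mk_iff']
  exact ⟨c⁻¹, by rw [hc', smul_smul, inv_mul_cancel₀ hc, one_smul]⟩

theorem toProj_Phi_rep (p : ℙ ℂ (Fin (n + 1) → ℂ)) : toProj (Phi p.rep) = p := by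
  rw [toProj_Phi p.rep_nonzero, p.mk_rep]

theorem holMap_of {P : ℂ → Mat (n + 1)} (hP : HolP univ P) : HolMap fun z => toProj (P z) := by
  intro z
  obtain ⟨V, G, hV, hzV, hd, hF⟩ := hP z (mem_univ z)
  refine ⟨V, G, hV, hzV, hd, fun w hw => ?_⟩
  obtain ⟨h1, h2⟩ := hF w hw
  exact ⟨h1, by
    change toProj (P w) = _
    rw [h2, toProj_Phi h1]⟩

theorem rep_toProj (hF : ∀ i, IsForm (F i)) {M : Mat (n + 1)} (hM : M ∈ TF F) :
    (toProj M).rep ∈ Cone F := by
  rw [← Phi_mem hF (Projectivization.rep_nonzero _), Phi_rep_toProj (TF_PM hM)]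
  exact hM

theorem mem_TF {p : ℙ ℂ (Fin (n + 1) → ℂ)} (hp : p.rep ∈ Cone F) : Phi p.rep ∈ TF F :=
  ⟨p.rep, hp, rfl⟩

end Pool.Agent.N155.BB
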