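import Pool.Agent.N155.B.Sym

/-! Entire curves in rational curves: their derivative is not bounded below. -/

set_option autoImplicit false

open Filter Topology Metric Set MvPolynomial LinearAlgebra.Projectivization

namespace Pool.Agent.N155.BB

open Pool.Agent.Y190.OP Pool.Agent.W602.GT Pool.Agent.N155

variable {n : ℕ}

/-- the chain rule -/
theorem hasDerivAt_eval2 (p : MvPolynomial (Fin 2) ℂ) {u v : ℂ → ℂ} {u' v' z : ℂ}
    (hu : HasDerivAt u u' z) (hv : HasDerivAt v v' z) :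
    HasDerivAt (fun w => eval ![u w, v w] p)
      (eval ![u z, v z] (pderiv 0 p) * u' + eval ![u z, v z] (pderiv 1 p) * v') z := by
  induction p using MvPolynomial.induction_on with
  | C a =>
    simp only [eval_C, pderiv_C, map_zero, zero_mul, add_zero]
    exact hasDerivAt_const z a
  | add p q hp hq =>
    simp only [map_add]
    refine (hp.fun_add hq).congr_deriv ?_
    ring
  | mul_X p i hp =>
    have hx : HasDerivAt (fun w => ![u w, v w] i) (![u', v'] i) z := by
      fin_cases i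
      · exact hu
      · exact hv
    simp only [map_mul, eval_X, Derivation.leibniz, pderiv_X, smul_eq_mul, map_add]
    refine (hp.fun_mul hx).congr_deriv ?_
    fin_cases i
    · simp
      ring
    · simp
      ring

/-- homogeneous polynomials are bounded by powers of the norm -/
theorem norm_eval_le {q : MvPolynomial (Fin 2) ℂ} {m : ℕ} (hq : q.IsHomogeneous m) :
    ∃ C : ℝ, 0 ≤ C ∧ ∀ a : Fin 2 → ℂ, ‖eval a q‖ ≤ C * ‖a‖ ^ m := by
  have hc : Continuous fun a : Fin 2 → ℂ => eval a q := by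
    simp only [eval_eq']
    fun_prop
  obtain ⟨C, hC⟩ := (isCompact_closedBall (0 : Fin 2 → ℂ) 1).exists_bound_of_continuousOn
    hc.continuousOn
  refine ⟨C, (norm_nonneg _).trans (hC 0 (mem_closedBall_self zero_le_one)), fun a => ?_⟩
  by_cases ha : a = 0
  · rw [ha, norm_zero]
    have h1 := eval_smul hq 0 (0 : Fin 2 → ℂ)
    rw [smul_zero] at h1
    rcases Nat.eq_zero_or_pos m with hm | hm
    · rw [hm, pow_zero, mul_one]
      exact hC 0 (mem_closedBall_self zero_le_one)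
    · rw [h1, zero_pow hm.ne', zero_pow hm.ne', zero_mul, norm_zero, mul_zero]
  · have han : (‖a‖ : ℂ) ≠ 0 := by
      have := norm_pos_iff.2 ha
      exact_mod_cast this.ne'
    have h1 : a = (‖a‖ : ℂ) • ((‖a‖ : ℂ)⁻¹ • a) := by
      rw [smul_smul, mul_inv_cancel₀ han, one_smul]
    have h2 : eval a q = (‖a‖ : ℂ) ^ m * eval ((‖a‖ : ℂ)⁻¹ • a) q := by
      conv_lhs => rw [h1]
      exact eval_smul hq _ _
    rw [h2, norm_mul, norm_pow, Complex.norm_real, norm_norm, mul_comm]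
    refine mul_le_mul_of_nonneg_right (hC _ ?_) (by positivity)
    rw [mem_closedBall_zero_iff, norm_smul, norm_inv, Complex.norm_real, norm_norm]
    exact (inv_mul_cancel₀ (norm_ne_zero_iff.2 ha)).le

/-- a lower bound for forms without common zeros -/
theorem le_norm_eval {p : Fin (n + 1) → MvPolynomial (Fin 2) ℂ} {m : ℕ}
    (hp : ∀ j, (p j).IsHomogeneous m) (h0 : ∀ a : Fin 2 → ℂ, a ≠ 0 → ∃ j, eval a (p j) ≠ 0) :
    ∃ C : ℝ, 0 < C ∧ ∀ a : Fin 2 → ℂ, C * ‖a‖ ^ (2 * m) ≤ ∑ j, ‖eval a (p j)‖ ^ 2 := by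
  have hc : Continuous fun a : Fin 2 → ℂ => ∑ j, ‖eval a (p j)‖ ^ 2 := by
    simp only [eval_eq']
    fun_prop
  obtain ⟨a0, ha0, hmin⟩ := (isCompact_sphere (0 : Fin 2 → ℂ) 1).exists_isMinOn
    ⟨fun _ => 1, by
      rw [mem_sphere_zero_iff_norm]
      simp⟩ hc.continuousOn
  have hane : a0 ≠ 0 := by
    rintro rfl
    rw [mem_sphere_zero_iff_norm, norm_zero] at ha0
    exact zero_ne_one ha0
  have hpos : ∀ a : Fin 2 → ℂ, a ≠ 0 → 0 < ∑ j, ‖eval a (p j)‖ ^ 2 := by
    intro a ha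
    obtain ⟨j, hj⟩ := h0 a ha
    exact sum_pos (v := fun j => eval a (p j)) (Function.ne_iff.2 ⟨j, hj⟩)
  refine ⟨min (∑ j, ‖eval a0 (p j)‖ ^ 2) 1, lt_min (hpos _ hane) one_pos, fun a => ?_⟩
  by_cases ha : a = 0
  · rcases Nat.eq_zero_or_pos m with hm | hm
    · rw [hm, mul_zero, pow_zero, mul_one]
      refine (min_le_left _ _).trans (le_of_eq ?_)
      refine Finset.sum_congr rfl fun j _ => ?_
      have h1 := hp j
      rw [hm, ← totalDegree_zero_iff_isHomogeneous] at h1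
      rw [totalDegree_eq_zero_iff_eq_C.1 h1, eval_C, eval_C]
    · rw [ha, norm_zero, zero_pow (by omega), mul_zero]
      exact Finset.sum_nonneg fun _ _ => by positivity
  · have han : (‖a‖ : ℂ) ≠ 0 := by
      have := norm_pos_iff.2 ha
      exact_mod_cast this.ne'
    have h1 : a = (‖a‖ : ℂ) • ((‖a‖ : ℂ)⁻¹ • a) := by
      rw [smul_smul, mul_inv_cancel₀ han, one_smul]
    have h2 : ∀ j, ‖eval a (p j)‖ ^ 2 = ‖a‖ ^ (2 * m) * ‖eval ((‖a‖ : ℂ)⁻¹ • a) (p j)‖ ^ 2 := by
      intro j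
      have h3 : eval a (p j) = (‖a‖ : ℂ) ^ m * eval ((‖a‖ : ℂ)⁻¹ • a) (p j) := by
        conv_lhs => rw [h1]
        exact eval_smul (hp j) _ _
      rw [h3, norm_mul, norm_pow, Complex.norm_real, norm_norm, mul_pow, ← pow_mul, mul_comm m 2]
    simp only [h2]
    rw [← Finset.mul_sum, mul_comm]
    refine mul_le_mul_of_nonneg_left ((min_le_left _ _).trans (hmin ?_)) (by positivity)
    rw [mem_sphere_zero_iff_norm, norm_smul, norm_inv, Complex.norm_real, norm_norm]
    exact inv_mul_cancel₀ (norm_ne_zero_iff.2 ha)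

/-- no holomorphic map to the line has its derivative bounded below -/
theorem no_wronsk {u v : ℂ → ℂ} (hu : Differentiable ℂ u) (hv : Differentiable ℂ v) {C : ℝ}
    (hn : ∀ z, u z ≠ 0 ∨ v z ≠ 0)
    (hC : ∀ z, ‖![u z, v z]‖ ^ 2 ≤ C * ‖u z * deriv v z - v z * deriv u z‖) : False := by
  set W : ℂ → ℂ := fun z => u z * deriv v z - v z * deriv u z with hW
  have hWd : Differentiable ℂ W := (hu.fun_mul hv.deriv).fun_sub (hv.fun_mul hu.deriv)
  have hnu : ∀ z, ‖u z‖ ≤ ‖![u z, v z]‖ := fun z => norm_le_pi_norm ![u z, v z] 0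
  have hnv : ∀ z, ‖v z‖ ≤ ‖![u z, v z]‖ := fun z => norm_le_pi_norm ![u z, v z] 1
  have hpos : ∀ z, 0 < ‖![u z, v z]‖ := by
    intro z
    rcases hn z with h | h
    · exact (norm_pos_iff.2 h).trans_le (hnu z)
    · exact (norm_pos_iff.2 h).trans_le (hnv z)
  have hW0 : ∀ z, W z ≠ 0 := by
    intro z h0
    have h1 := hC z
    have h2 : u z * deriv v z - v z * deriv u z = 0 := h0
    rw [h2, norm_zero, mul_zero] at h1
    have := hpos z
    nlinarith
  have hdiv : Differentiable ℂ fun z => u z ^ 2 / W z := (hu.fun_pow 2).fun_div hWd hW0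
  have hdiv2 : Differentiable ℂ fun z => v z ^ 2 / W z := (hv.fun_pow 2).fun_div hWd hW0
  have hb : ∀ z x : ℂ, ‖x‖ ≤ ‖![u z, v z]‖ → ‖x ^ 2 / W z‖ ≤ C := by
    intro z x hx
    rw [norm_div, norm_pow, div_le_iff₀ (norm_pos_iff.2 (hW0 z))]
    exact (pow_le_pow_left₀ (norm_nonneg _) hx 2).trans (hC z)
  have hc1 : ∀ z, u z ^ 2 / W z = u 0 ^ 2 / W 0 := by
    intro z
    apply hdiv.apply_eq_apply_of_bounded
    rw [isBounded_iff_forall_norm_le]
    refine ⟨C, ?_⟩
    rintro _ ⟨z, rfl⟩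
    exact hb z _ (hnu z)
  have hc2 : ∀ z, v z ^ 2 / W z = v 0 ^ 2 / W 0 := by
    intro z
    apply hdiv2.apply_eq_apply_of_bounded
    rw [isBounded_iff_forall_norm_le]
    refine ⟨C, ?_⟩
    rintro _ ⟨z, rfl⟩
    exact hb z _ (hnv z)
  by_cases hα : u 0 ^ 2 / W 0 = 0
  · have hu0 : ∀ z, u z = 0 := by
      intro z
      have h1 := hc1 z
      rw [hα, div_eq_zero_iff] at h1
      exact pow_eq_zero_iff two_ne_zero |>.1 (h1.resolve_right (hW0 z))
    apply hW0 0
    have h2 : u = fun _ => 0 := funext hu0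
    simp only [hW, h2, deriv_const, zero_mul, mul_zero, sub_zero]
  · have hu0 : ∀ z, u z ≠ 0 := by
      intro z h0
      apply hα
      rw [← hc1 z, h0]
      simp
    have hr : ∀ z, HasDerivAt (fun z => v z / u z) (W z / u z ^ 2) z := by
      intro z
      refine ((hv z).hasDerivAt.fun_div (hu z).hasDerivAt (hu0 z)).congr_deriv ?_
      simp only [hW]
      ring
    have hr2 : ∀ z, (v z / u z) ^ 2 = (v 0 ^ 2 / W 0) / (u 0 ^ 2 / W 0) := by
      intro z
      rw [← hc1 z, ← hc2 z, div_div_div_cancel_right₀ (hW0 z), div_pow]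
    have hr3 : ∀ z, 2 * (v z / u z) * (W z / u z ^ 2) = 0 := by
      intro z
      have h1 := (hr z).fun_pow 2
      have h2 : HasDerivAt (fun z => (v z / u z) ^ 2) 0 z := by
        have : (fun z => (v z / u z) ^ 2) = fun _ => (v 0 ^ 2 / W 0) / (u 0 ^ 2 / W 0) :=
          funext hr2
        rw [this]
        exact hasDerivAt_const z _
      have h3 := h1.unique h2
      simpa using h3
    have hr4 : ∀ z, v z / u z = 0 := by
      intro z
      have h1 : W z / u z ^ 2 ≠ 0 := div_ne_zero (hW0 z) (pow_ne_zero 2 (hu0 z))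
      have h2 := (mul_eq_zero.1 (hr3 z)).resolve_right h1
      exact (mul_eq_zero.1 h2).resolve_left two_ne_zero
    have h5 : HasDerivAt (fun z => v z / u z) 0 0 := by
      have : (fun z => v z / u z) = fun _ => 0 := funext hr4
      rw [this]
      exact hasDerivAt_const _ _
    have h6 := (hr 0).unique h5
    exact div_ne_zero (hW0 0) (pow_ne_zero 2 (hu0 0)) h6

theorem ThroughLine.not_below {f : ℂ → ℙ ℂ (Fin (n + 1) → ℂ)} (hf : ThroughLine f) {c C : ℝ}
    (hc : 0 < c) (hb : DerBetween c C f) : False := by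
  obtain ⟨u, v, m, p, hu, hv, hp, h0, hn, hfp⟩ := hf
  set g : ℂ → Fin (n + 1) → ℂ := fun z j => eval ![u z, v z] (p j) with hg
  have hgd : ∀ z j, HasDerivAt (fun w => g w j) (eval ![u z, v z] (pderiv 0 (p j)) * deriv u z +
      eval ![u z, v z] (pderiv 1 (p j)) * deriv v z) z := fun z j =>
    hasDerivAt_eval2 (p j) (hu z).hasDerivAt (hv z).hasDerivAt
  have hgd' : ∀ z, HasDerivAt g (fun j => eval ![u z, v z] (pderiv 0 (p j)) * deriv u z +
      eval ![u z, v z] (pderiv 1 (p j)) * deriv v z) z := fun z => hasDerivAt_pi.2 (hgd z)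
  have hdiff : DifferentiableOn ℂ g univ := fun z _ =>
    (hgd' z).differentiableAt.differentiableWithinAt
  have hbz := fun z => (hb univ g isOpen_univ hdiff (fun w _ => hfp w) z (mem_univ z)).1
  have hane : ∀ z, ![u z, v z] ≠ 0 := by
    intro z h
    rcases hn z with h1 | h1
    · exact h1 (congrFun h 0)
    · exact h1 (congrFun h 1)
  obtain ⟨c1, hc1, hlow⟩ := le_norm_eval hp h0
  rcases Nat.eq_zero_or_pos m with hm | hm
  · -- constant maps
    have hz : ∀ j, deriv g 0 j = 0 := by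
      intro j
      rw [(hgd' 0).deriv]
      have h1 := hp j
      rw [hm, ← totalDegree_zero_iff_isHomogeneous] at h1
      change eval ![u 0, v 0] (pderiv 0 (p j)) * deriv u 0 +
        eval ![u 0, v 0] (pderiv 1 (p j)) * deriv v 0 = 0
      rw [totalDegree_eq_zero_iff_eq_C.1 h1, pderiv_C, pderiv_C, map_zero, zero_mul, zero_mul,
        add_zero]
    have h1 : wedge (g 0) (deriv g 0) ≤ (n + 1) * 0 := by
      apply wedge_le le_rfl
      intro i j
      rw [hz i, hz j, mul_zero, mul_zero, sub_zero, norm_zero]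
    have h2 := hbz 0
    have h3 := sum_pos (hfp 0).1
    have h4 := mul_pos hc h3
    rw [mul_zero] at h1
    exact absurd (h2.trans h1) (not_le.2 h4)
  -- the bounds
  have hpd : ∀ (i : Fin 2) (j : Fin (n + 1)), ∃ C : ℝ, 0 ≤ C ∧ ∀ a : Fin 2 → ℂ,
      ‖eval a (pderiv i (p j))‖ ≤ C * ‖a‖ ^ (m - 1) := fun i j => norm_eval_le (hp j).pderiv
  choose Cb hCb0 hCb using hpd
  set C2 : ℝ := ∑ i, ∑ j, Cb i j with hC2
  have hC20 : 0 ≤ C2 := Finset.sum_nonneg fun i _ => Finset.sum_nonneg fun j _ => hCb0 i j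
  have hCle : ∀ i j, Cb i j ≤ C2 := by
    intro i j
    refine le_trans ?_ (Finset.single_le_sum (f := fun i => ∑ j, Cb i j)
      (fun i _ => Finset.sum_nonneg fun j _ => hCb0 i j) (Finset.mem_univ i))
    exact Finset.single_le_sum (f := fun j => Cb i j) (fun j _ => hCb0 i j) (Finset.mem_univ j)
  have hpb : ∀ i j (a : Fin 2 → ℂ), ‖eval a (pderiv i (p j))‖ ≤ C2 * ‖a‖ ^ (m - 1) :=
    fun i j a => (hCb i j a).trans (mul_le_mul_of_nonneg_right (hCle i j) (by positivity))
  have hm' : (m : ℂ) ≠ 0 := by exact_mod_cast hm.ne'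
  have heul : ∀ z j, (m : ℂ) * g z j = u z * eval ![u z, v z] (pderiv 0 (p j)) +
      v z * eval ![u z, v z] (pderiv 1 (p j)) := by
    intro z j
    have h1 := congrArg (eval ![u z, v z]) (hp j).sum_X_mul_pderiv
    rw [Fin.sum_univ_two] at h1
    simp only [map_add, map_mul, eval_X, nsmul_eq_mul, map_natCast] at h1
    exact h1.symm
  refine no_wronsk hu hv hn (C := ((n : ℝ) + 1) * (2 * C2 ^ 2) / (c * c1)) fun z => ?_
  set a : Fin 2 → ℂ := ![u z, v z] with ha
  set W : ℂ := u z * deriv v z - v z * deriv u z with hW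
  have hapos : 0 < ‖a‖ := norm_pos_iff.2 (hane z)
  have hij : ∀ i j, ‖g z i * deriv g z j - g z j * deriv g z i‖ ≤
      2 * C2 ^ 2 * ‖a‖ ^ (2 * (m - 1)) * ‖W‖ := by
    intro i j
    have h1 : (m : ℂ) * (g z i * deriv g z j - g z j * deriv g z i) =
        W * (eval a (pderiv 0 (p i)) * eval a (pderiv 1 (p j)) -
          eval a (pderiv 0 (p j)) * eval a (pderiv 1 (p i))) := by
      rw [mul_sub, ← mul_assoc, ← mul_assoc, heul z i, heul z j, (hgd' z).deriv]
      simp only [hW]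
      ring
    have h2 : ‖g z i * deriv g z j - g z j * deriv g z i‖ ≤
        ‖(m : ℂ) * (g z i * deriv g z j - g z j * deriv g z i)‖ := by
      rw [norm_mul, Complex.norm_natCast]
      exact le_mul_of_one_le_left (norm_nonneg _) (by exact_mod_cast hm)
    refine h2.trans ?_
    rw [h1, norm_mul, mul_comm]
    refine mul_le_mul_of_nonneg_right ?_ (norm_nonneg _)
    have h3 : ∀ i j, ‖eval a (pderiv 0 (p i)) * eval a (pderiv 1 (p j))‖ ≤
        C2 ^ 2 * ‖a‖ ^ (2 * (m - 1)) := by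
      intro i j
      rw [norm_mul]
      refine (mul_le_mul (hpb 0 i a) (hpb 1 j a) (norm_nonneg _) (by positivity)).trans ?_
      rw [two_mul, pow_add]
      apply le_of_eq
      ring
    refine (norm_sub_le _ _).trans ?_
    have := h3 i j
    have := h3 j i
    linarith
  have h1 := wedge_le (by positivity) hij
  have h2 := (mul_le_mul_of_nonneg_left (hlow a) hc.le).trans ((hbz z).trans h1)
  have h3 : 2 * m = 2 * (m - 1) + 2 := by omega
  rw [h3, pow_add] at h2
  have hpw : 0 < ‖a‖ ^ (2 * (m - 1)) := by positivity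
  have h4 : ‖a‖ ^ (2 * (m - 1)) * (c * c1 * ‖a‖ ^ 2) ≤
      ‖a‖ ^ (2 * (m - 1)) * ((n + 1) * (2 * C2 ^ 2) * ‖W‖) := by
    linarith
  have h5 := le_of_mul_le_mul_left h4 hpw
  rw [div_mul_eq_mul_div, le_div_iff₀ (by positivity)]
  linarith

theorem const_not_below {f : ℂ → ℙ ℂ (Fin (n + 1) → ℂ)} (hf : ∀ z w, f z = f w) {c C : ℝ}
    (hc : 0 < c) (hb : DerBetween c C f) : False := by
  refine ThroughLine.not_below (f := f) ⟨fun _ => 1, fun _ => 0, 0, fun j => MvPolynomial.C ((f 0).rep j),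
    by fun_prop, by fun_prop, fun j => isHomogeneous_C _ _, fun a _ => ?_,
    fun _ => Or.inl one_ne_zero, fun z => ?_⟩ hc hb
  · obtain ⟨j, hj⟩ := Function.ne_iff.1 (f 0).rep_nonzero
    exact ⟨j, by rwa [eval_C]⟩
  · simp only [eval_C]
    exact ⟨(f 0).rep_nonzero, by rw [hf z 0]; exact (f 0).mk_rep.symm⟩

theorem noBC_of {ι ι' : Type} {F : ι → MvPolynomial (Fin (n + 1)) ℂ}
    {G : ι' → MvPolynomial (Fin (n + 1)) ℂ} (h : RationalCurvesOnly F G) : NoBC F G := by
  intro f hf hfG c C hc hb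
  rcases h f hf hfG with h1 | h1
  · exact const_not_below h1 hc hb
  · exact h1.not_below hc hb

end Pool.Agent.N155.BB
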