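import Pool.Agent.N155.B.Fin

/-! Symmetric differentials and entire curves of bounded derivative. -/

set_option autoImplicit false

open Filter Topology Metric Set MvPolynomial LinearAlgebra.Projectivization

namespace Pool.Agent.N155.BB

open Pool.Agent.Y190.OP Pool.Agent.W602.GT Pool.Agent.N155

variable {n : ℕ} {ι ι' : Type} {F : ι → MvPolynomial (Fin (n + 1)) ℂ}
  {G : ι' → MvPolynomial (Fin (n + 1)) ℂ} {d k : ℕ}
  {κ : Type} {η : κ → (Fin (n + 1) → ℂ) → (Fin (n + 1) → ℂ) → (Fin (n + 1) → ℂ) → ℂ}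
  {σ : (Fin (n + 1) → ℂ) → (Fin (n + 1) → ℂ) → ℂ}

/-- the local graphs -/
theorem graph_of (hX : ProjManifold F d) {M0 : Mat (n + 1)} (hM0 : M0 ∈ TF F) :
    ∃ (i : Fin (n + 1)) (J : Fin d → Fin (n + 1)) (O : Set (Mat (n + 1)))
      (U : Set (Fin d → ℂ)) (Ψ : (Fin d → ℂ) → Fin (n + 1) → ℂ), IsOpen O ∧ M0 ∈ O ∧ IsOpen U ∧
      AnalyticOnNhd ℂ Ψ U ∧ (∀ z ∈ U, Ψ z ∈ Cone F) ∧
      ∀ M ∈ O, M i i ≠ 0 ∧ (fun k => chart i M (J k)) ∈ U ∧ (M ∈ TF F →
        chart i M = Ψ (fun k => chart i M (J k))) := by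
  obtain ⟨x0, hx0, rfl⟩ := hM0
  obtain ⟨i, J, U, Ψ, hxi, hU, hxU, hΨ, hΨX, hev⟩ := hX.smooth x0 hx0
  have hi : Phi x0 i i ≠ 0 := (Phi_diag_ne hx0.1).2 hxi
  have hch : chart i (Phi x0) = (x0 i)⁻¹ • x0 := chart_Phi hx0.1 hxi
  have hξ0 : (fun k => chart i (Phi x0) (J k)) = fun k => x0 (J k) / x0 i := by
    funext k
    rw [hch, Pi.smul_apply, smul_eq_mul]
    ring
  have hU0 : (fun k => chart i (Phi x0) (J k)) ∈ U := by rwa [hξ0]
  have hcξ : ContinuousAt (fun (M : Mat (n + 1)) k => chart i M (J k)) (Phi x0) := by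
    rw [continuousAt_pi]
    intro k
    exact (continuous_apply (J k)).continuousAt.comp (continuousAt_chart hi)
  have h2 : ∀ᶠ M : Mat (n + 1) in 𝓝 (Phi x0), M i i ≠ 0 ∧
      (fun k => chart i M (J k)) ∈ U ∧
      (x0 i • chart i M ∈ Cone F → x0 i • chart i M =
        (x0 i • chart i M) i • Ψ (fun k => (x0 i • chart i M) (J k) / (x0 i • chart i M) i)) := by
    refine ((continuous_apply_apply i i).continuousAt.eventually_ne hi).and
      ((hcξ.eventually (hU.mem_nhds hU0)).and ?_)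
    have h3 : Tendsto (fun M : Mat (n + 1) => x0 i • chart i M) (𝓝 (Phi x0)) (𝓝 x0) := by
      have h4 := (continuousAt_chart hi).tendsto.const_smul (x0 i)
      rwa [hch, smul_smul, mul_inv_cancel₀ hxi, one_smul] at h4
    exact h3.eventually hev
  obtain ⟨O, hOs, hO, hMO⟩ := _root_.mem_nhds_iff.1 h2
  refine ⟨i, J, O, U, Ψ, hO, hMO, hU, hΨ, fun z hz => (hΨX z hz).1, fun M hM => ?_⟩
  obtain ⟨e1, e3, e4⟩ := hOs hM
  refine ⟨e1, e3, fun hMT => ?_⟩
  have hcone := chart_cone hX.form hMT e1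
  have h5 := e4 (cone_smul hX.form hcone hxi)
  have h7 : (fun k => (x0 i • chart i M) (J k) / (x0 i • chart i M) i) =
      fun k => chart i M (J k) := by
    funext k
    rw [Pi.smul_apply, Pi.smul_apply, smul_eq_mul, smul_eq_mul, PM.chart_self e1, mul_one,
      mul_div_cancel_left₀ _ hxi]
  rw [h7, Pi.smul_apply, smul_eq_mul, PM.chart_self e1, mul_one] at h5
  exact smul_right_injective _ hxi h5

/-- the value of a symmetric differential on the derivative of a curve -/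
noncomputable def sv (σ : (Fin (n + 1) → ℂ) → (Fin (n + 1) → ℂ) → ℂ) (φ : ℂ → Mat (n + 1))
    (i : Fin (n + 1)) (t : ℂ) : ℂ := σ (chart i (φ t)) (deriv (fun s => chart i (φ s)) t)

/-- the local form of the values -/
theorem sv_loc (hX : ProjManifold F d) (hσ : SymDiff (Cone F) d k σ) (hk : 0 < k)
    {M0 : Mat (n + 1)} (hM0 : M0 ∈ TF F) : ∃ (O : Set (Mat (n + 1))) (i : Fin (n + 1)) (C : ℝ),
    IsOpen O ∧ M0 ∈ O ∧ (∀ M ∈ O, M i i ≠ 0) ∧ ∀ φ : ℂ → Mat (n + 1), HolP univ φ →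
      (∀ z, φ z ∈ TF F) → ∀ t, φ t ∈ O → AnalyticAt ℂ (sv σ φ i) t ∧
        ‖sv σ φ i t‖ ≤ C * ‖fderiv ℝ φ t‖ ^ k := by
  obtain ⟨i, J, O, U, Ψ, hO, hMO, hU, hΨ, hΨX, hloc⟩ := graph_of hX hM0
  obtain ⟨hi0, hU0, -⟩ := hloc M0 hMO
  obtain ⟨L, O1, hL, hO1, hMO1, -, -, hfd⟩ := lip_chart hi0
  have hF := hσ.hol U Ψ hU hΨ hΨX
  set f : (Fin d → ℂ) × (Fin d → ℂ) → ℂ := fun p => σ (Ψ p.1) (fderiv ℂ Ψ p.1 p.2) with hfdef
  set ξ : Mat (n + 1) → Fin d → ℂ := fun M k => chart i M (J k) with hξ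
  have hcξ : ContinuousAt ξ M0 := by
    rw [continuousAt_pi]
    intro k
    exact (continuous_apply (J k)).continuousAt.comp (continuousAt_chart hi0)
  obtain ⟨ε, hε, hεU⟩ := Metric.isOpen_iff.1 hU _ hU0
  have hev1 : ∀ᶠ M in 𝓝 M0, ξ M ∈ closedBall (ξ M0) (ε / 2) :=
    hcξ.eventually (closedBall_mem_nhds _ (by positivity))
  obtain ⟨O2, hO2s, hO2, hMO2⟩ := _root_.mem_nhds_iff.1 (hev1.and
    (inter_mem (hO.mem_nhds hMO) (hO1.mem_nhds hMO1)))
  have hOi : ∀ M ∈ O2, M i i ≠ 0 := fun M hM => (hloc M (hO2s hM).2.1).1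
  have hcomp : IsCompact (closedBall (ξ M0) (ε / 2) ×ˢ closedBall (0 : Fin d → ℂ) 1) :=
    (isCompact_closedBall _ _).prod (isCompact_closedBall _ _)
  have hsubU : closedBall (ξ M0) (ε / 2) ⊆ U :=
    (closedBall_subset_ball (by linarith)).trans hεU
  obtain ⟨CF, hCF⟩ := hcomp.exists_bound_of_continuousOn (f := f) (fun p hp =>
    (hF p ⟨hsubU hp.1, mem_univ _⟩).continuousAt.continuousWithinAt)
  have hCF0 : 0 ≤ CF := (norm_nonneg _).trans (hCF (ξ M0, 0)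
    ⟨mem_closedBall_self (by positivity), mem_closedBall_self zero_le_one⟩)
  have hbound : ∀ z ∈ closedBall (ξ M0) (ε / 2), ∀ w, ‖f (z, w)‖ ≤ CF * ‖w‖ ^ k := by
    intro z hz w
    have hzX := hΨX z (hsubU hz)
    by_cases hw : w = 0
    · have h1 : f (z, w) = 0 := by
        rw [hfdef, hw]
        simp only [map_zero]
        have h2 := hσ.deg (Ψ z) hzX 0 0
        rwa [smul_zero, zero_pow hk.ne', zero_mul] at h2
      rw [h1, norm_zero]
      positivity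
    · have hwn : (‖w‖ : ℂ) ≠ 0 := by
        have := norm_pos_iff.2 hw
        exact_mod_cast this.ne'
      have h1 : w = (‖w‖ : ℂ) • ((‖w‖ : ℂ)⁻¹ • w) := by
        rw [smul_smul, mul_inv_cancel₀ hwn, one_smul]
      have h2 : f (z, w) = (‖w‖ : ℂ) ^ k * f (z, (‖w‖ : ℂ)⁻¹ • w) := by
        rw [hfdef]
        simp only
        conv_lhs => rw [h1, map_smul]
        exact hσ.deg (Ψ z) hzX _ _
      rw [h2, norm_mul, norm_pow, Complex.norm_real, norm_norm, mul_comm]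
      refine mul_le_mul_of_nonneg_right (hCF _ ⟨hz, ?_⟩) (by positivity)
      rw [mem_closedBall_zero_iff, norm_smul, norm_inv, Complex.norm_real, norm_norm]
      exact (inv_mul_cancel₀ (norm_ne_zero_iff.2 hw)).le
  refine ⟨O2, i, CF * L ^ k, hO2, hMO2, hOi, fun φ hφ hφT t ht => ?_⟩
  have hcφ : Continuous φ := continuous_iff_continuousAt.2 fun _ => hφ.continuousAt (mem_univ _)
  have hev : ∀ᶠ t' in 𝓝 t, φ t' ∈ O2 := hcφ.continuousAt.eventually (hO2.mem_nhds ht)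
  -- the values are those of `f`
  have facts : ∀ t, φ t ∈ O2 → sv σ φ i t =
      f (ξ (φ t), fun k => deriv (fun s => chart i (φ s)) t (J k)) := by
    intro t ht
    have hit := hOi _ ht
    have hOt := (hO2s ht).2.1
    obtain ⟨-, hUt, ht3⟩ := hloc _ hOt
    have hΨt := ht3 (hφT _)
    have hev : ∀ᶠ s in 𝓝 t, φ s ∈ O := hcφ.continuousAt.eventually (hO.mem_nhds hOt)
    have hd := (an_chart hφ i hit).differentiableAt.hasDerivAt
    have hdξ : HasDerivAt (fun s => ξ (φ s))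
        (fun k => deriv (fun s => chart i (φ s)) t (J k)) t :=
      hasDerivAt_pi.2 fun k => (hasDerivAt_pi.1 hd) (J k)
    have f1 : deriv (fun s => chart i (φ s)) t = fderiv ℂ Ψ (ξ (φ t))
        (fun k => deriv (fun s => chart i (φ s)) t (J k)) := by
      have h1 := (hΨ _ hUt).differentiableAt.hasFDerivAt.comp_hasDerivAt t hdξ
      have h2 : (fun s => chart i (φ s)) =ᶠ[𝓝 t] Ψ ∘ fun s => ξ (φ s) := by
        filter_upwards [hev] with s hs
        exact (hloc _ hs).2.2 (hφT s)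
      rw [← h1.deriv, ← h2.deriv_eq]
    unfold sv
    rw [hfdef]
    simp only
    rw [← f1, ← hΨt]
  have hit := hOi _ ht
  obtain ⟨-, hUt, -⟩ := hloc _ (hO2s ht).2.1
  constructor
  · have hxa : AnalyticAt ℂ (fun t => chart i (φ t)) t := an_chart hφ i hit
    have hτ : AnalyticAt ℂ (fun t => deriv (fun s => chart i (φ s)) t) t := hxa.deriv
    have hτl : AnalyticAt ℂ (fun t k => deriv (fun s => chart i (φ s)) t (J k)) t :=
      analyticAt_pi_iff.2 fun k => (analyticAt_pi_iff.1 hτ) (J k)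
    have hξa : AnalyticAt ℂ (fun t => ξ (φ t)) t :=
      analyticAt_pi_iff.2 fun k => (analyticAt_pi_iff.1 hxa) (J k)
    have h1 : AnalyticAt ℂ (fun t => f (ξ (φ t),
        fun k => deriv (fun s => chart i (φ s)) t (J k))) t :=
      AnalyticAt.fun_comp (g := f) (hF _ ⟨hUt, mem_univ _⟩) (hξa.prod hτl)
    refine h1.congr ?_
    filter_upwards [hev] with t' ht'
    exact (facts t' ht').symm
  · rw [facts t ht]
    refine (hbound _ (hO2s ht).1 _).trans ?_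
    rw [mul_assoc, ← mul_pow]
    refine mul_le_mul_of_nonneg_left (pow_le_pow_left₀ (norm_nonneg _) ?_ k) hCF0
    have e1 := deriv_chart_le hφ i hit (hfd _ (hO2s ht).2.2) (le_refl ‖fderiv ℝ φ t‖)
    rw [pi_norm_le_iff_of_nonneg (by positivity)]
    intro k
    exact (norm_le_pi_norm _ (J k)).trans e1

theorem sv_indep (hX : ProjManifold F d) (hσ : SymDiff (Cone F) d k σ) {φ : ℂ → Mat (n + 1)}
    (hφ : HolP univ φ) (hφT : ∀ z, φ z ∈ TF F) {i i' : Fin (n + 1)} {t : ℂ}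
    (hi : φ t i i ≠ 0) (hi' : φ t i' i' ≠ 0) : sv σ φ i' t = sv σ φ i t := by
  have hM := TF_PM (hφT t)
  have hx := chart_i'_ne hM hi hi'
  obtain ⟨f', hf', hfv⟩ := tr_strict hx
  have hev : ∀ j, φ t j j ≠ 0 → ∀ᶠ s in 𝓝 t, φ s j j ≠ 0 := fun j hj =>
    ((continuous_apply_apply (ρ := fun (_ : Fin (n + 1)) (_ : Fin (n + 1)) => ℂ) j
      j).continuousAt.comp (hφ.continuousAt (mem_univ t))).eventually_ne hj
  have e2 : deriv (fun s => chart i' (φ s)) t = f' (deriv (fun s => chart i (φ s)) t) := by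
    have h1 := (an_chart hφ i hi).differentiableAt.hasDerivAt
    have h2 := hf'.hasFDerivAt.comp_hasDerivAt t h1
    have h3 : (fun s => chart i' (φ s)) =ᶠ[𝓝 t] tr i' ∘ fun s => chart i (φ s) := by
      filter_upwards [hev i hi, hev i' hi'] with s hs hs'
      exact chart_tr (TF_PM (hφT s)) hs hs'
    rw [h3.deriv_eq, h2.deriv]
  unfold sv
  rw [e2, hfv, chart_tr hM hi hi']
  unfold tr
  exact hσ.twist _ (chart_cone hX.form (hφT t) hi) _ _ _ (inv_ne_zero hx)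

/-- **Symmetric differentials have constant values on curves of bounded derivative.** -/
theorem sv_const (hX : ProjManifold F d) (hσ : SymDiff (Cone F) d k σ) (hk : 0 < k) :
    ∃ C : ℝ, 0 ≤ C ∧ ∀ φ : ℂ → Mat (n + 1), HolP univ φ → (∀ z, φ z ∈ TF F) → ∀ B : ℝ,
      (∀ z, ‖fderiv ℝ φ z‖ ≤ B) → ∃ c : ℂ, (∀ t i, φ t i i ≠ 0 → sv σ φ i t = c) ∧
        ∀ z, ‖c‖ ≤ C * ‖fderiv ℝ φ z‖ ^ k := by
  have hbd : ∃ C : ℝ, ∀ M ∈ TF F, ∀ φ : ℂ → Mat (n + 1), HolP univ φ → (∀ z, φ z ∈ TF F) →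
      ∀ t, φ t = M → ∀ i, φ t i i ≠ 0 → ‖sv σ φ i t‖ ≤ C * ‖fderiv ℝ φ t‖ ^ k := by
    refine (isCompact_TF hX.form).induction_on (p := fun s => ∃ C : ℝ, ∀ M ∈ s,
      ∀ φ : ℂ → Mat (n + 1), HolP univ φ → (∀ z, φ z ∈ TF F) →
      ∀ t, φ t = M → ∀ i, φ t i i ≠ 0 → ‖sv σ φ i t‖ ≤ C * ‖fderiv ℝ φ t‖ ^ k) ?_ ?_ ?_ ?_
    · exact ⟨0, fun M hM => absurd hM (notMem_empty _)⟩
    · rintro s s' hss ⟨C, hC⟩
      exact ⟨C, fun M hM => hC M (hss hM)⟩
    · rintro s s' ⟨C, hC⟩ ⟨C', hC'⟩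
      refine ⟨max C C', fun M hM φ hφ hφT t ht i hi => ?_⟩
      rcases hM with hM | hM
      · exact (hC M hM φ hφ hφT t ht i hi).trans
          (mul_le_mul_of_nonneg_right (le_max_left _ _) (by positivity))
      · exact (hC' M hM φ hφ hφT t ht i hi).trans
          (mul_le_mul_of_nonneg_right (le_max_right _ _) (by positivity))
    · intro M hM
      obtain ⟨O, i, C, hO, hMO, hOi, h1⟩ := sv_loc hX hσ hk hM
      refine ⟨O, mem_nhdsWithin_of_mem_nhds (hO.mem_nhds hMO), C,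
        fun M' hM' φ hφ hφT t ht j hj => ?_⟩
      have ht' : φ t ∈ O := by rwa [ht]
      rw [sv_indep hX hσ hφ hφT (hOi _ ht') hj]
      exact (h1 φ hφ hφT t ht').2
  obtain ⟨C, hC⟩ := hbd
  refine ⟨max C 0, le_max_right _ _, fun φ hφ hφT B hB => ?_⟩
  have hC' : ∀ t i, φ t i i ≠ 0 → ‖sv σ φ i t‖ ≤ max C 0 * ‖fderiv ℝ φ t‖ ^ k :=
    fun t i hi => (hC _ (hφT t) φ hφ hφT t rfl i hi).trans
      (mul_le_mul_of_nonneg_right (le_max_left _ _) (by positivity))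
  choose idx hidx using fun t => PM.exists_diag (TF_PM (hφT t))
  set s : ℂ → ℂ := fun t => sv σ φ (idx t) t with hs
  have hsi : ∀ i t, φ t i i ≠ 0 → s t = sv σ φ i t := fun i t hi =>
    sv_indep hX hσ hφ hφT hi (hidx t)
  have hcφ : Continuous φ := continuous_iff_continuousAt.2 fun _ => hφ.continuousAt (mem_univ _)
  have hana : Differentiable ℂ s := by
    intro t
    obtain ⟨O, i, C, hO, hMO, hOi, h1⟩ := sv_loc hX hσ hk (hφT t)
    refine ((h1 φ hφ hφT t hMO).1.congr ?_).differentiableAt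
    filter_upwards [hcφ.continuousAt.eventually (hO.mem_nhds hMO)] with t' ht'
    exact (hsi i t' (hOi _ ht')).symm
  have hconst : ∀ t, s t = s 0 := by
    intro t
    apply hana.apply_eq_apply_of_bounded
    rw [isBounded_iff_forall_norm_le]
    refine ⟨max C 0 * B ^ k, ?_⟩
    rintro _ ⟨z, rfl⟩
    refine (hC' z _ (hidx z)).trans ?_
    exact mul_le_mul_of_nonneg_left (pow_le_pow_left₀ (norm_nonneg _) (hB z) k) (le_max_right _ _)
  refine ⟨s 0, fun t i hi => by rw [← hsi i t hi, hconst t], fun z => ?_⟩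
  rw [← hconst z]
  exact hC' z _ (hidx z)

/-- the value in terms of a lift -/
theorem sv_lift (hX : ProjManifold F d) (hσ : SymDiff (Cone F) d k σ)
    {f : ℂ → ℙ ℂ (Fin (n + 1) → ℂ)} (hf : HolIn F f) {V : Set ℂ} {g : ℂ → Fin (n + 1) → ℂ}
    (hV : IsOpen V) (hg : DifferentiableOn ℂ g V)
    (hfg : ∀ w ∈ V, ∃ h : g w ≠ 0, f w = Projectivization.mk ℂ (g w) h) {z : ℂ} (hz : z ∈ V) :
    ∃ i, Phi (f z).rep i i ≠ 0 ∧
      σ (g z) (deriv g z) = sv σ (fun z => Phi (f z).rep) i z := by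
  have hφg : ∀ w ∈ V, Phi (f w).rep = Phi (g w) := by
    intro w hw
    obtain ⟨h0, he⟩ := hfg w hw
    rw [he, Phi_rep_mk]
  obtain ⟨i, hi⟩ := Function.ne_iff.1 (hfg z hz).1
  have hgi : g z i ≠ 0 := hi
  have hdg : DifferentiableAt ℂ g z := (hg z hz).differentiableAt (hV.mem_nhds hz)
  have hdi := (hasDerivAt_pi.1 hdg.hasDerivAt) i
  have hPi : Phi (f z).rep i i ≠ 0 := by
    rw [hφg z hz]
    exact (Phi_diag_ne (hfg z hz).1).2 hgi
  refine ⟨i, hPi, ?_⟩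
  have hch : (fun w => chart i (Phi (f w).rep)) =ᶠ[𝓝 z] fun w => (g w i)⁻¹ • g w := by
    filter_upwards [hV.mem_nhds hz, hdi.continuousAt.eventually_ne hgi] with w hw hwi
    rw [hφg w hw, chart_Phi (hfg w hw).1 hwi]
  have hder : HasDerivAt (fun w => (g w i)⁻¹ • g w)
      ((g z i)⁻¹ • deriv g z + (-(deriv g z i) / (g z i) ^ 2) • g z) z :=
    (hdi.fun_inv hgi).smul hdg.hasDerivAt
  unfold sv
  have hch0 : chart i (Phi (f z).rep) = (g z i)⁻¹ • g z := hch.self_of_nhds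
  rw [hch.deriv_eq, hder.deriv, hch0]
  have hcone : g z ∈ Cone F := by
    have h1 := mem_TF (hf.2 z)
    rw [hφg z hz] at h1
    exact (Phi_mem hX.form (hfg z hz).1).1 h1
  have h1 : (g z i)⁻¹ • deriv g z + (-(deriv g z i) / (g z i) ^ 2) • g z =
      (g z i)⁻¹ • (deriv g z + (-(deriv g z i) / g z i) • g z) := by
    rw [smul_add, smul_smul]
    congr 2
    field_simp
  rw [h1, hσ.twist _ hcone _ _ _ (inv_ne_zero hgi)]

/-- the derivative of the curve of matrices is bounded by the derivative of the curve -/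
theorem bounded_of_between {f : ℂ → ℙ ℂ (Fin (n + 1) → ℂ)} (hf : HolMap f) {c C : ℝ}
    (hb : DerBetween c C f) : ∃ B : ℝ, ∀ z, ‖fderiv ℝ (fun z => Phi (f z).rep) z‖ ≤ B := by
  obtain ⟨A, hA, hw⟩ := wedge_fderiv n
  refine ⟨A * C, fun z => ?_⟩
  obtain ⟨V, g, hV, hzV, hg, hfg⟩ := hf z
  obtain ⟨h1, -⟩ := hw f hf V g hV hg hfg z hzV
  have h5 := h1.trans (mul_le_mul_of_nonneg_left (hb V g hV hg hfg z hzV).2 hA.le)
  rw [← mul_assoc] at h5
  exact le_of_mul_le_mul_right h5 (sum_pos (hfg z hzV).1)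

/-- curves whose derivative is bounded above and below are doubly periodic -/
theorem periodic_of_low (hX : ProjManifold F d) (hG : ∀ i, IsForm (G i))
    (hη : PositiveTwoForms (Cone F) (Cone G) d η) (hZ : NoBC F G)
    {f : ℂ → ℙ ℂ (Fin (n + 1) → ℂ)} (hf : HolIn F f) {B c : ℝ}
    (hB : ∀ z, ‖fderiv ℝ (fun z => Phi (f z).rep) z‖ ≤ B) (hc : 0 < c)
    (hlow : ∀ z, c ≤ ‖fderiv ℝ (fun z => Phi (f z).rep) z‖) : DoublyPeriodic f := by
  have hB0 : 0 ≤ B := (norm_nonneg _).trans (hB 0)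
  set ρ : ℝ := 2 / (B + 1) with hρ
  have hρ0 : 0 < ρ := by positivity
  have hc0p : 0 < ρ * c := by positivity
  have hhol := holP_of_map hf.1
  have hcls := BCw.cls (isCompact_TF hX.form) (TF_PM (F := F)) hc0p
  have hout : ∀ φ, BCw (TF F) (ρ * c) φ → ∃ z, φ z ∉ TF G := fun φ hφ =>
    hZ.out hX.form hG hc0p hφ
  have hnorm : ∀ z, ‖fderiv ℝ (fun z => Phi (f (aff 0 ρ z)).rep) z‖ =
      ρ * ‖fderiv ℝ (fun z => Phi (f z).rep) (aff 0 ρ z)‖ := fun z =>
    norm_fderiv_aff (Ψ := fun z => Phi (f z).rep) hρ0.le (hhol.differentiableAt (mem_univ _))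
  have hmem : BCw (TF F) (ρ * c) (fun z => Phi (f (aff 0 ρ z)).rep) := by
    refine ⟨?_, fun z => mem_TF (hf.2 _), fun z => ?_, fun z => ?_⟩
    · have := hhol.aff 0 ρ
      rwa [preimage_univ] at this
    · rw [hnorm, hρ, div_mul_eq_mul_div, div_le_iff₀ (by positivity)]
      have := hB (aff 0 ρ z)
      linarith
    · rw [hnorm]
      exact mul_le_mul_of_nonneg_left (hlow _) hρ0.le
  obtain ⟨p, q, hind, hp, hq⟩ := two_periods (gw_of hX hG hη) hout hcls hmem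
  have hρc : (ρ : ℂ) ≠ 0 := by exact_mod_cast hρ0.ne'
  have key : ∀ p : ℂ, (∀ z, Phi (f (aff 0 ρ (z + p))).rep = Phi (f (aff 0 ρ z)).rep) →
      ∀ z, f (z + ρ * p) = f z := by
    intro p hp z
    have h1 := hp (z / ρ)
    have h2 : aff 0 ρ (z / ρ + p) = z + ρ * p := by
      unfold aff
      field_simp
      ring
    rw [h2, aff0 hρ0.ne'] at h1
    exact proj_ext h1
  refine pair_periods (p := ρ * p) (q := ρ * q) ?_ (key p hp) (key q hq)
  rw [LinearIndependent.pair_iff] at hind ⊢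
  intro a b hab
  apply hind a b
  have h1 : (ρ : ℂ) * (a • p + b • q) = 0 := by
    rw [← hab]
    simp only [Complex.real_smul]
    ring
  exact (mul_eq_zero.1 h1).resolve_left hρc

/-- **The alternative.** -/
theorem periodic_or_tangent (hX : ProjManifold F d) (hG : ∀ i, IsForm (G i))
    (hη : PositiveTwoForms (Cone F) (Cone G) d η) (hZ : NoBC F G)
    {f : ℂ → ℙ ℂ (Fin (n + 1) → ℂ)} (hf : HolIn F f) {C : ℝ} (hb : DerBetween 0 C f) :
    DoublyPeriodic f ∨ ∀ k, 0 < k → ∀ σ, SymDiff (Cone F) d k σ → TangentTo σ f := by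
  by_cases hper : DoublyPeriodic f
  · exact Or.inl hper
  right
  intro k hk σ hσ V g hV hg hfg z hz
  obtain ⟨B, hB⟩ := bounded_of_between hf.1 hb
  obtain ⟨C', hC', hex⟩ := sv_const hX hσ hk
  obtain ⟨c, hcs, hcb⟩ := hex (fun z => Phi (f z).rep) (holP_of_map hf.1)
    (fun z => mem_TF (hf.2 z)) B hB
  obtain ⟨i, hi, h1⟩ := sv_lift hX hσ hf hV hg hfg hz
  rw [h1, hcs z i hi]
  by_contra hc
  have hcpos : 0 < ‖c‖ := norm_pos_iff.2 hc
  have hc0 : 0 < min 1 (‖c‖ / (C' + 1)) := lt_min one_pos (by positivity)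
  refine hper (periodic_of_low hX hG hη hZ hf hB hc0 fun z => ?_)
  rcases le_total 1 ‖fderiv ℝ (fun z => Phi (f z).rep) z‖ with h1 | h1
  · exact (min_le_left _ _).trans h1
  · refine (min_le_right _ _).trans ?_
    rw [div_le_iff₀ (by positivity)]
    have h2 : ‖fderiv ℝ (fun z => Phi (f z).rep) z‖ ^ k ≤
        ‖fderiv ℝ (fun z => Phi (f z).rep) z‖ := by
      have := pow_le_pow_of_le_one (norm_nonneg _) h1 hk
      rwa [pow_one] at this
    have h3 := hcb z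
    have h4 := norm_nonneg (fderiv ℝ (fun z => Phi (f z).rep) z)
    nlinarith

end Pool.Agent.N155.BB
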