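import Pool.Agent.N155.A.Inv
import Pool.Agent.N155.L.Nd

/-!
Changes of charts and limits of difference quotients. (After the files `N154/GG/Rig.lean`,
`N154/TT/Rig.lean` of the same team.)
-/

set_option autoImplicit false

open Filter Topology Metric Set MvPolynomial

namespace Pool.Agent.N155.BB

open Pool.Agent.Y190.OP Pool.Agent.N155

variable {N : ℕ}

/-- strict limits -/
theorem strict_lim {ι E F : Type*} [NormedAddCommGroup E] [NormedSpace ℂ E] [NormedAddCommGroup F]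
    [NormedSpace ℂ F] {f : E → F} {f' : E →L[ℂ] F} {x v : E} (hf : HasStrictFDerivAt f f' x)
    {l : Filter ι} {p q : ι → E} {c : ι → ℂ} (hp : Tendsto p l (𝓝 x)) (hq : Tendsto q l (𝓝 x))
    (hv : Tendsto (fun n => c n • (q n - p n)) l (𝓝 v)) :
    Tendsto (fun n => c n • (f (q n) - f (p n))) l (𝓝 (f' v)) := by
  have h2 : (fun n => f (q n) - f (p n) - f' (q n - p n)) =o[l] fun n => q n - p n :=
    hf.isLittleO.comp_tendsto (hq.prodMk_nhds hp)
  have h3 : (fun n => c n • (f (q n) - f (p n) - f' (q n - p n))) =o[l]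
      fun n => c n • (q n - p n) := (Asymptotics.isBigO_refl c l).smul_isLittleO h2
  have h4 : Tendsto (fun n => c n • (f (q n) - f (p n) - f' (q n - p n))) l (𝓝 0) :=
    (Asymptotics.isLittleO_one_iff ℂ).1 (h3.trans_isBigO (hv.isBigO_one ℂ))
  have h5 : Tendsto (fun n => f' (c n • (q n - p n))) l (𝓝 (f' v)) :=
    (f'.continuous.tendsto v).comp hv
  have h6 := h4.add h5
  rw [zero_add] at h6
  refine h6.congr fun n => ?_
  rw [map_smul, ← smul_add]
  congr 1
  abel

/-- the change of charts -/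
noncomputable def tr (i' : Fin N) (u : Fin N → ℂ) : Fin N → ℂ := (u i')⁻¹ • u

theorem tr_strict {i' : Fin N} {x : Fin N → ℂ} (hx : x i' ≠ 0) :
    ∃ f' : (Fin N → ℂ) →L[ℂ] (Fin N → ℂ), HasStrictFDerivAt (tr i') f' x ∧
      ∀ v, f' v = (x i')⁻¹ • (v + (-(v i' / x i')) • x) := by
  have h1 : HasStrictFDerivAt (fun u : Fin N → ℂ => u i')
      (ContinuousLinearMap.proj (R := ℂ) (φ := fun _ : Fin N => ℂ) i') x :=
    (ContinuousLinearMap.proj (R := ℂ) (φ := fun _ : Fin N => ℂ) i').hasStrictFDerivAt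
  have h2 := (hasStrictDerivAt_inv hx).comp_hasStrictFDerivAt x h1
  have h3 := h2.smul (hasStrictFDerivAt_id x)
  refine ⟨_, h3, fun v => ?_⟩
  funext l
  simp only [_root_.add_apply, _root_.smul_apply,
    ContinuousLinearMap.smulRight_apply, ContinuousLinearMap.proj_apply, Pi.add_apply,
    Pi.smul_apply, smul_eq_mul, ContinuousLinearMap.id_apply, Function.comp_apply, id_eq]
  field_simp

theorem chart_tr {M : Mat N} (hM : M ∈ PM) {i i' : Fin N} (hi : M i i ≠ 0) (hi' : M i' i' ≠ 0) :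
    chart i' M = tr i' (chart i M) := by
  obtain ⟨u, hu, rfl⟩ := hM
  have h1 := (Phi_diag_ne hu).1 hi
  have h2 := (Phi_diag_ne hu).1 hi'
  rw [chart_Phi hu h1, chart_Phi hu h2]
  unfold tr
  funext l
  simp only [Pi.smul_apply, smul_eq_mul]
  field_simp

theorem chart_i'_ne {M : Mat N} (hM : M ∈ PM) {i i' : Fin N} (hi : M i i ≠ 0) (hi' : M i' i' ≠ 0) :
    chart i M i' ≠ 0 := by
  obtain ⟨u, hu, rfl⟩ := hM
  have h1 := (Phi_diag_ne hu).1 hi
  have h2 := (Phi_diag_ne hu).1 hi'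
  rw [chart_Phi hu h1, Pi.smul_apply, smul_eq_mul]
  exact mul_ne_zero (inv_ne_zero h1) h2

theorem contDiffAt_chart {M : Mat N} {i : Fin N} (hi : M i i ≠ 0) :
    ContDiffAt ℝ 1 (chart i) M := by
  rw [contDiffAt_pi]
  intro j
  unfold chart
  have h : ∀ j k, ContDiffAt ℝ 1 (fun M : Mat N => M j k) M := fun j k =>
    ((ContinuousLinearMap.proj (R := ℝ) (φ := fun _ : Fin N => ℂ) k).comp
      (ContinuousLinearMap.proj (R := ℝ) (φ := fun _ : Fin N => Fin N → ℂ) j)).contDiff.contDiffAt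
  simp only [div_eq_mul_inv]
  exact (h j i).mul ((h i i).inv hi)

theorem lip_chart {M0 : Mat N} {i : Fin N} (hi : M0 i i ≠ 0) : ∃ (L : ℝ) (O : Set (Mat N)),
    0 ≤ L ∧ IsOpen O ∧ M0 ∈ O ∧ (∀ M ∈ O, M i i ≠ 0) ∧
    (∀ M ∈ O, ∀ M' ∈ O, ‖chart i M - chart i M'‖ ≤ L * ‖M - M'‖) ∧
    ∀ M ∈ O, ‖fderiv ℝ (chart i) M‖ ≤ L := by
  obtain ⟨K, s, hs, hK⟩ := (contDiffAt_chart hi).exists_lipschitzOnWith
  have h1 : ∀ᶠ M : Mat N in 𝓝 M0, M i i ≠ 0 :=
    (continuous_apply_apply i i).continuousAt.eventually_ne hi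
  have h2 : ContinuousAt (fderiv ℝ (chart i)) M0 :=
    ((contDiffAt_chart hi).fderiv_right (m := 0) (by norm_num)).continuousAt
  have h3 : ∀ᶠ M in 𝓝 M0, ‖fderiv ℝ (chart i) M‖ < ‖fderiv ℝ (chart i) M0‖ + 1 :=
    h2.norm.eventually_lt_const (lt_add_one _)
  obtain ⟨O, hOs, hO, hMO⟩ := _root_.mem_nhds_iff.1 ((h1.and h3).and hs)
  refine ⟨max (K : ℝ) (‖fderiv ℝ (chart i) M0‖ + 1), O, by positivity, hO, hMO,
    fun M hM => (hOs hM).1.1, fun M hM M' hM' => ?_, fun M hM =>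
      (hOs hM).1.2.le.trans (le_max_right _ _)⟩
  have := hK.dist_le_mul M (hOs hM).2 M' (hOs hM').2
  rw [dist_eq_norm, dist_eq_norm] at this
  exact this.trans (mul_le_mul_of_nonneg_right (le_max_left _ _) (norm_nonneg _))

/-- the chart is analytic along a curve -/
theorem an_chart {H : ℂ → Mat N} (h : HolP univ H) (i : Fin N) {s : ℂ} (hi : H s i i ≠ 0) :
    AnalyticAt ℂ (fun s => chart i (H s)) s := by
  rw [Complex.analyticAt_iff_eventually_differentiableAt]
  have h1 : ∀ᶠ s' in 𝓝 s, H s' i i ≠ 0 := by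
    have : ContinuousAt (fun s' => H s' i i) s :=
      (continuous_apply_apply i i).continuousAt.comp (h.continuousAt (mem_univ s))
    exact this.eventually_ne hi
  filter_upwards [h1] with s' hs'
  exact h.diff_chart (mem_univ s') hs'

theorem deriv_chart_le {H : ℂ → Mat N} (h : HolP univ H) (i : Fin N) {s : ℂ} (hi : H s i i ≠ 0)
    {L B : ℝ} (hL : ‖fderiv ℝ (chart i) (H s)‖ ≤ L) (hB : ‖fderiv ℝ H s‖ ≤ B) :
    ‖deriv (fun s => chart i (H s)) s‖ ≤ L * B := by
  have h1 : HasFDerivAt (fun s => chart i (H s))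
      ((fderiv ℂ (fun s => chart i (H s)) s).restrictScalars ℝ) s :=
    (h.diff_chart (mem_univ s) hi).hasFDerivAt.restrictScalars ℝ
  have h2 : HasFDerivAt (fun s => chart i (H s)) ((fderiv ℝ (chart i) (H s)).comp (fderiv ℝ H s)) s :=
    (((contDiffAt_chart hi).differentiableAt (by norm_num)).hasFDerivAt).comp s
      (h.differentiableAt (mem_univ s)).hasFDerivAt
  have h3 := h1.unique h2
  rw [norm_deriv_eq_norm_fderiv, ← ContinuousLinearMap.norm_restrictScalars (𝕜' := ℝ), h3]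
  refine (ContinuousLinearMap.opNorm_comp_le _ _).trans ?_
  exact mul_le_mul hL hB (norm_nonneg _) ((norm_nonneg _).trans hL)

/-- immersed curves are immersed in the charts -/
theorem deriv_chart_ne {H : ℂ → Mat N} (h : HolP univ H) (i : Fin N) {s : ℂ} (hi : H s i i ≠ 0)
    (h0 : fderiv ℝ H s ≠ 0) : deriv (fun s => chart i (H s)) s ≠ 0 := by
  intro hd
  apply h0
  have h1 : HasDerivAt (fun s => chart i (H s)) 0 s := by
    have := (h.diff_chart (mem_univ s) hi).hasDerivAt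
    rwa [hd] at this
  have h2 : HasFDerivAt (fun s => chart i (H s)) (0 : ℂ →L[ℝ] (Fin N → ℂ)) s := by
    have h3 := h1.hasFDerivAt.restrictScalars ℝ
    refine h3.congr_fderiv ?_
    ext x
    simp
  have h3 : HasFDerivAt (Phi : (Fin N → ℂ) → Mat N) (fderiv ℝ Phi (chart i (H s)))
      (chart i (H s)) :=
    ((contDiffAt_Phi (PM.chart_ne hi)).differentiableAt (by norm_num)).hasFDerivAt
  have h4 := h3.comp s h2
  rw [ContinuousLinearMap.comp_zero] at h4
  have h5 : ∀ᶠ s' in 𝓝 s, H s' i i ≠ 0 := by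
    have : ContinuousAt (fun s' => H s' i i) s :=
      (continuous_apply_apply i i).continuousAt.comp (h.continuousAt (mem_univ s))
    exact this.eventually_ne hi
  have h6 : H =ᶠ[𝓝 s] Phi ∘ fun s => chart i (H s) := by
    filter_upwards [h5] with s' hs'
    exact (PM.Phi_chart (h.mem_PM (mem_univ s')) hs').symm
  exact (h4.congr_of_eventuallyEq h6).fderiv

/-- convergence in the charts -/
theorem cc_chart {l : Filter ℕ} {P : ℕ → ℂ → Mat N} {φ : ℂ → Mat N} (h : CConv l univ P φ)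
    (i r : Fin N) :
    CConv l {z | φ z i i ≠ 0} (fun m w => chart i (P m w) r) (fun w => chart i (φ w) r) :=
  CConv.comp (fun w _ => h w (mem_univ w)) fun _ hw =>
    (continuous_apply r).continuousAt.comp (continuousAt_chart hw)

theorem cc_chart_diff {l : Filter ℕ} {P : ℕ → ℂ → Mat N} {φ : ℂ → Mat N} (h : CConv l univ P φ)
    (hP : ∀ m, HolP univ (P m)) {z0 : ℂ} (i r : Fin N) (hn : φ z0 i i ≠ 0) :
    ∃ V ∈ 𝓝 z0, ∀ᶠ m in l, DifferentiableOn ℂ (fun w => chart i (P m w) r) V := by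
  have hO : IsOpen {M : Mat N | M i i ≠ 0} :=
    isOpen_ne_fun (continuous_apply_apply i i) continuous_const
  obtain ⟨V, hV, hzV, hm⟩ := cc_mem h (hO.mem_nhds hn)
  refine ⟨V, hV.mem_nhds hzV, ?_⟩
  filter_upwards [hm] with m hm w hw
  exact (differentiableAt_pi.1 ((hP m).diff_chart (mem_univ w) (hm w hw)) r).differentiableWithinAt

end Pool.Agent.N155.BB
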